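import Mathlib
import Pool.Agent.N988.EP.Stm

/-!
# Project EP (helper988), leaf POT: potentials and paths (helper252)
-/

set_option autoImplicit false

open Pool.Agent.N988.EA Pool.Agent.N988.EC Pool.Agent.N988.EP

namespace Pool.Agent.N252.EP

theorem leads_append {b n : ℕ} : ∀ (l l' : List (Edge b n × Bool)) (x y z : Pt b n), Leads l x y →
    Leads l' y z → Leads (l ++ l') x z
  | [], l', x, y, z, h, h' => by
      have e : x = y := h
      rw [e]
      exact h'
  | q :: l, l', x, y, z, h, h' => ⟨h.1, leads_append l l' _ y z h.2 h'⟩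

theorem leads_symm {b n : ℕ} : ∀ (l : List (Edge b n × Bool)) (x y : Pt b n), Leads l x y →
    ∃ l' : List (Edge b n × Bool), Leads l' y x
  | [], x, y, h => ⟨[], Eq.symm h⟩
  | q :: l, x, y, h => by
      obtain ⟨l', hl'⟩ := leads_symm l _ y h.2
      refine ⟨l' ++ [(q.1, !q.2)], leads_append l' _ y (bd n q.1 (!q.2)) x hl' ⟨rfl, ?_⟩⟩
      show bd n q.1 (!(!q.2)) = x
      rw [Bool.not_not]
      exact h.1

theorem leads_emb {b n : ℕ} (i : Fin b) (h : Bool) : ∀ (l : List (Edge b n × Bool)) (x y : Pt b n),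
    Leads l x y → ∃ l' : List (Edge b (n + 1) × Bool), Leads l' (emb i h x) (emb i h y)
  | [], x, y, hl => by
      have e : x = y := hl
      exact ⟨[], show emb i h x = emb i h y by rw [e]⟩
  | q :: l, x, y, hl => by
      obtain ⟨l', hl'⟩ := leads_emb i h l _ y hl.2
      refine ⟨(((i, h, q.1) : Edge b (n + 1)), q.2) :: l', ?_, hl'⟩
      show emb i h (bd n q.1 q.2) = emb i h x
      rw [hl.1]

/-- all vertices are connected to the left end -/
theorem conn {b : ℕ} (hb : 1 ≤ b) : ∀ (n : ℕ) (x : Pt b n),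
    ∃ l : List (Edge b n × Bool), Leads l x (.inl false)
  | 0, .inl false => ⟨[], rfl⟩
  | 0, .inl true => ⟨[(((() : Unit) : Edge b 0), true)], rfl, rfl⟩
  | 0, .inr v => Empty.elim v
  | n + 1, x => by
      -- the middle vertex and the ends
      have hmid : ∀ (i : Fin b) (h : Bool), ∃ l : List (Edge b (n + 1) × Bool),
          Leads l (.inr (.inl i) : Pt b (n + 1)) (.inl h) := by
        intro i h
        obtain ⟨l, hl⟩ := conn hb n (.inl true)
        cases h
        · obtain ⟨l', hl'⟩ := leads_emb i false l _ _ hl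
          exact ⟨l', hl'⟩
        · obtain ⟨l', hl'⟩ := leads_emb i true l _ _ hl
          obtain ⟨l'', hl''⟩ := leads_symm l' _ _ hl'
          exact ⟨l'', hl''⟩
      have hinl : ∀ h : Bool, ∃ l : List (Edge b (n + 1) × Bool),
          Leads l (.inl h : Pt b (n + 1)) (.inl false) := by
        intro h
        obtain ⟨l, hl⟩ := hmid ⟨0, hb⟩ h
        obtain ⟨l', hl'⟩ := leads_symm l _ _ hl
        obtain ⟨l'', hl''⟩ := hmid ⟨0, hb⟩ false
        exact ⟨l' ++ l'', leads_append _ _ _ _ _ hl' hl''⟩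
      match x with
      | .inl h => exact hinl h
      | .inr (.inl i) => exact hmid i false
      | .inr (.inr (i, h, v)) =>
        obtain ⟨l, hl⟩ := conn hb n (.inr v)
        obtain ⟨l', hl'⟩ := leads_emb i h l _ _ hl
        cases h
        · obtain ⟨l'', hl''⟩ := hinl false
          exact ⟨l' ++ l'', leads_append _ _ _ _ _ hl' hl''⟩
        · obtain ⟨l'', hl''⟩ := hmid i false
          exact ⟨l' ++ l'', leads_append _ _ _ _ _ hl' hl''⟩

theorem conn2 {b : ℕ} (hb : 1 ≤ b) (n : ℕ) (x y : Pt b n) :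
    ∃ l : List (Edge b n × Bool), Leads l x y := by
  obtain ⟨l, hl⟩ := conn hb n x
  obtain ⟨l', hl'⟩ := conn hb n y
  obtain ⟨l'', hl''⟩ := leads_symm l' _ _ hl'
  exact ⟨l ++ l'', leads_append _ _ _ _ _ hl hl''⟩

theorem fpt_mem {b : ℕ} (hb : 1 ≤ b) {n : ℕ} (w : Edge b n → Bool) (A B : Set (Pt b n))
    (hA : A.Nonempty) (hB : B.Nonempty) :
    ∃ l, ∃ x ∈ A, ∃ y ∈ B, Leads l x y ∧ time w l = fpt w A B := by
  obtain ⟨x, hx⟩ := hA
  obtain ⟨y, hy⟩ := hB
  obtain ⟨l, hl⟩ := conn2 hb n x y
  have h : {t | ∃ l, ∃ x ∈ A, ∃ y ∈ B, Leads l x y ∧ time w l = t}.Nonempty :=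
    ⟨time w l, l, x, hx, y, hy, hl, rfl⟩
  exact Nat.sInf_mem h

theorem fpt_le {b n : ℕ} (w : Edge b n → Bool) (A B : Set (Pt b n)) (l : List (Edge b n × Bool))
    (x y : Pt b n) (hx : x ∈ A) (hy : y ∈ B) (h : Leads l x y) : fpt w A B ≤ time w l :=
  Nat.sInf_le ⟨l, x, hx, y, hy, h, rfl⟩

theorem time_cons {b n : ℕ} (w : Edge b n → Bool) (q : Edge b n × Bool) (l : List (Edge b n × Bool)) :
    time w (q :: l) = wgt w q.1 + time w l := by
  unfold time
  rw [List.map_cons, List.sum_cons]

/-- the difference of a potential along a path -/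
theorem pot_path {b n : ℕ} (w : Edge b n → Bool) (f : Pt b n → ℤ) (hf : Pot w f) :
    ∀ (l : List (Edge b n × Bool)) (x y : Pt b n), Leads l x y → f x ≤ f y + time w l
  | [], x, y, h => by
      have e : x = y := h
      rw [e]
      have h0 : (0 : ℤ) ≤ (time w [] : ℤ) := Int.natCast_nonneg _
      linarith
  | q :: l, x, y, h => by
      have h1 := pot_path w f hf l _ y h.2
      have h2 := abs_le.1 (hf q.1)
      rw [time_cons]
      push_cast
      rw [← h.1]
      obtain ⟨e, s⟩ := q
      cases s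
      · have h3 : f (bd n e true) ≤ f y + time w l := h1
        show f (bd n e false) ≤ f y + (wgt w e + time w l)
        have h4 := h2.2
        have h5 : f (bd n e false) - f (bd n e true) ≤ wgt w e := h4
        linarith
      · have h3 : f (bd n e false) ≤ f y + time w l := h1
        show f (bd n e true) ≤ f y + (wgt w e + time w l)
        have h4 := h2.1
        have h5 : -(wgt w e : ℤ) ≤ f (bd n e false) - f (bd n e true) := h4
        linarith

theorem t_POT : S_POT := by
  intro b hb n w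
  refine ⟨?_, ?_⟩
  · intro f A B a hA hB hf hfA hfB
    obtain ⟨l, x, hx, y, hy, hl, ht⟩ := fpt_mem hb w A B hA hB
    have h1 := pot_path w f hf l x y hl
    have h2 := hfA x hx
    have h3 := hfB y hy
    rw [← ht]
    linarith
  · have hne : (Set.range (Sum.inl : Bool → Pt b n)).Nonempty := ⟨_, ⟨true, rfl⟩⟩
    refine ⟨fun x => (fpt w {x} (Set.range Sum.inl) : ℤ), ?_, ?_, ?_, ?_⟩
    · have key : ∀ (e : Edge b n) (s : Bool), fpt w {bd n e s} (Set.range Sum.inl) ≤
          wgt w e + fpt w {bd n e (!s)} (Set.range Sum.inl) := by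
        intro e s
        obtain ⟨l, x, hx, y, hy, hl, ht⟩ := fpt_mem hb w {bd n e (!s)} (Set.range Sum.inl)
          (Set.singleton_nonempty _) hne
        have hx' : x = bd n e (!s) := hx
        rw [← ht]
        have h := fpt_le w {bd n e s} (Set.range Sum.inl) ((e, s) :: l) (bd n e s) y rfl hy
          ⟨rfl, by rw [← hx']; exact hl⟩
        rwa [time_cons] at h
      intro e
      have h1 : fpt w {bd n e false} (Set.range Sum.inl) ≤
        wgt w e + fpt w {bd n e true} (Set.range Sum.inl) := key e false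
      have h2 : fpt w {bd n e true} (Set.range Sum.inl) ≤
        wgt w e + fpt w {bd n e false} (Set.range Sum.inl) := key e true
      show |((fpt w {bd n e false} (Set.range Sum.inl) : ℕ) : ℤ) -
        ((fpt w {bd n e true} (Set.range Sum.inl) : ℕ) : ℤ)| ≤ wgt w e
      rw [abs_le]
      constructor
      · have h2' : ((fpt w {bd n e true} (Set.range Sum.inl) : ℕ) : ℤ) ≤
          wgt w e + ((fpt w {bd n e false} (Set.range Sum.inl) : ℕ) : ℤ) := by exact_mod_cast h2
        linarith
      · have h1' : ((fpt w {bd n e false} (Set.range Sum.inl) : ℕ) : ℤ) ≤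
          wgt w e + ((fpt w {bd n e true} (Set.range Sum.inl) : ℕ) : ℤ) := by exact_mod_cast h1
        linarith
    · intro s
      have h := fpt_le w {Sum.inl s} (Set.range Sum.inl) [] (Sum.inl s) (Sum.inl s) rfl ⟨s, rfl⟩ rfl
      have h0 : fpt w {(Sum.inl s : Pt b n)} (Set.range Sum.inl) = 0 := Nat.le_zero.1 h
      show ((fpt w {(Sum.inl s : Pt b n)} (Set.range Sum.inl) : ℕ) : ℤ) = 0
      rw [h0]
      rfl
    · intro x
      exact Int.natCast_nonneg _
    · intro e s
      obtain ⟨l, x, hx, y, hy, hl, ht⟩ := fpt_mem hb w {bd n e s} (Set.range Sum.inl)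
        (Set.singleton_nonempty _) hne
      have hx' : x = bd n e s := hx
      have h : far w e ≤ fpt w {bd n e s} (Set.range Sum.inl) := by
        rw [← ht]
        exact fpt_le w (Set.range (bd n e)) (Set.range Sum.inl) l x y ⟨s, hx'.symm⟩ hy hl
      exact Int.ofNat_le.2 h

end Pool.Agent.N252.EP
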