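import Pool.Agent.N252.FB_MAING0
import Pool.Agent.N979.CP.Fin

/-!
# PROJECT FB (helper979), part MAING (helper252)
-/

set_option autoImplicit false

namespace Pool.Agent.N252.FB_MAING

open Pool.Agent.H241R3.FV Pool.Agent.N526.CP Pool.Agent.N979.CP

theorem main (h1 : S_FAMG) (h2 : S_PTWG) (h3 : S_LIPG) (h4 : S_CAPVG) : S_MAING :=
  core Fin.sph Fin.fub Fin.sto h1 h2 h3 h4

end Pool.Agent.N252.FB_MAING
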