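import Pool.Agent.N979.CP.Stm4
import Pool.Agent.N979.CP.MAINb

/-!
# PROJECT FB (helper979), part MAING (helper252): assembly of the lower bound
Adapted from `Pool/Agent/N979/CP/MAINb.lean` (helper73).
-/

set_option autoImplicit false

open MeasureTheory Metric Set Filter Topology InnerProductGeometry Matrix

namespace Pool.Agent.N252.FB_MAING

open Pool.Agent.H241R3.FV Pool.Agent.N526.CP Pool.Agent.N979.CP

theorem core (hSPH : S_SPH) (hFUB : S_FUB) (hSTO : S_STO)
    (h1 : S_FAMG) (h2 : S_PTWG) (h3 : S_LIPG) (h4 : S_CAPVG) : S_MAING := by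
  intro d hd M _ _ S hbd s t R hGood hPar
  by_cases hvol : S.vol = ⊤
  · rw [hvol]
    exact le_top
  have hvol' : S.vol < ⊤ := lt_top_iff_ne_top.2 hvol
  obtain ⟨g, hg⟩ := h1 d hd M S hbd s t R hPar
  obtain ⟨K, hK1, hK2, hK3, hK4, hK5, hK6, hK7⟩ := h3 d hd M S s t R g hPar hg
  obtain ⟨hprob, -, -⟩ := hSPH d hd
  have := hprob
  obtain ⟨hs0, hs1, ht0, ht1, hR, hz⟩ := id hPar
  -- Stokes
  have hst1 : ∀ θ, jint S (Psi g θ) =
      ∫ y in ball (0 : E (d + 1)) 1, (fderiv ℝ (Psi0G s t R θ) y).det := fun θ =>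
    hSTO (d + 1) (by omega) M S hvol' K (Psi g θ) (Psi0G s t R θ) (hK1 θ) (hK3 θ)
      (fun x => hK5 θ x)
  have hst2 : jint S (Hf ∘ Xf g) =
      ∫ y in ball (0 : E (d + 1)) 1, (fderiv ℝ (fun y : E (d + 1) => Hf (s • y)) y).det :=
    hSTO (d + 1) (by omega) M S hvol' K (Hf ∘ Xf g) (fun y : E (d + 1) => Hf (s • y)) hK2 hK4
      (fun x => hK6 x)
  -- Fubini
  obtain ⟨-, hF2, hF3⟩ := hFUB d hd M S hvol' K (Psi g) hK1 hK7 hprob
  obtain ⟨-, hG2, -⟩ := hFUB d hd M S hvol' K (fun _ => Hf ∘ Xf g) (fun _ => hK2)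
    (hK2.continuous.comp continuous_snd) hprob
  have hG4 : ∀ i, IntegrableOn (fun p => (fderiv ℝ (Hf ∘ Xf g ∘ (S.chart i).map) p).det)
      (S.chart i).D := by
    intro i
    have h := hG2 i
    simp only [integral_const, probReal_univ, one_smul] at h
    exact h
  have hcap := h4 d hd s t R hs0 hs1 ht0 ht1 hR
  have e1 : (d + 1) * s ^ d * (t / R) * JJ d s t - d * capv d s = ∑ i, ∫ p in (S.chart i).D,
      ((d + 1) * ∫ θ, (fderiv ℝ (Psi g θ ∘ (S.chart i).map) p).det ∂(sg (d + 1)) -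
        d * (fderiv ℝ (Hf ∘ Xf g ∘ (S.chart i).map) p).det) := by
    rw [← hcap, ← hst2]
    simp only [← hst1]
    rw [hF3]
    unfold jint
    rw [Finset.mul_sum, Finset.mul_sum, ← Finset.sum_sub_distrib]
    refine Finset.sum_congr rfl fun i _ => ?_
    rw [integral_sub ((hF2 i).const_mul _) ((hG4 i).const_mul _), integral_const_mul,
      integral_const_mul]
    rfl
  have hRn : 0 < R ^ (d + 1) := pow_pos hR _
  unfold low
  rw [ENNReal.ofReal_mul hRn.le, e1]
  have key : ENNReal.ofReal (∑ i, ∫ p in (S.chart i).D,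
      ((d + 1) * ∫ θ, (fderiv ℝ (Psi g θ ∘ (S.chart i).map) p).det ∂(sg (d + 1)) -
        d * (fderiv ℝ (Hf ∘ Xf g ∘ (S.chart i).map) p).det)) ≤
      ∑ i, ∫⁻ p in (S.chart i).D, ENNReal.ofReal (√((S.chart i).G p).det / R ^ (d + 1)) := by
    refine (MAINb.ofReal_sum_le _ _).trans ?_
    refine Finset.sum_le_sum fun i _ => ?_
    refine (MAINb.ofReal_integral_le (((hF2 i).const_mul _).sub ((hG4 i).const_mul _))).trans ?_
    refine lintegral_mono_ae ?_
    have h2' := ae_restrict_of_ae (s := (S.chart i).D) (h2 d hd M S s t R g hGood hPar hg i)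
    filter_upwards [h2', ae_restrict_mem (S.chart i).meas_D] with p hp hpD
    exact ENNReal.ofReal_le_ofReal (hp ((S.chart i).D_sub hpD))
  refine (mul_le_mul_right key _).trans ?_
  unfold OFill.vol
  rw [Finset.mul_sum]
  refine Finset.sum_le_sum fun i _ => ?_
  rw [← lintegral_const_mul' _ _ ENNReal.ofReal_ne_top]
  refine le_of_eq ?_
  refine lintegral_congr fun p => ?_
  rw [← ENNReal.ofReal_mul hRn.le, mul_div_cancel₀ _ hRn.ne']

end Pool.Agent.N252.FB_MAING
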