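import Pool.Agent.N979.P1.Stm
import Pool.Agent.N526.CP.LIP
import Pool.Agent.N526.CP.LOC
import Pool.Agent.N526.CP.SPH

/-!
# Project P1 (helper979), part LEV: generic scaling (helper252)
-/

set_option autoImplicit false

open MeasureTheory Metric Set Filter Topology InnerProductGeometry Matrix

namespace Pool.Agent.N252.P1_LEV

open Pool.Agent.H241R3.FV Pool.Agent.N526.CP Pool.Agent.N979.P1

theorem main : S_LEV := by
  intro M _ _ S s g hs0 hs1 hg T hT c₀ hc₀
  have hprob : IsProbabilityMeasure (sg (1 + 1)) := (SPH.t 1 le_rfl).1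
  have hlip : ∀ q q' : M, ‖Zg g q - Zg g q'‖ ≤ dist q q' := fun q q' => LIP.int_lip (d := 1) hg q q'
  have hZc : Continuous (Zg g : M → E 2) := by
    refine (LipschitzWith.of_dist_le_mul (K := 1) fun q q' => ?_).continuous
    rw [dist_eq_norm, NNReal.coe_one, one_mul]
    exact hlip q q'
  have hf : ∀ i, ContinuousOn (fun p => ‖Zg g ((S.chart i).map p)‖) (S.chart i).U := by
    intro i p hp
    have h : ContinuousAt (fun p => ‖Zg g ((S.chart i).map p)‖) p :=
      (hZc.continuousAt.comp (LOC.chart_cont (S.chart i) hp)).norm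
    exact h.continuousWithinAt
  -- the bad numbers
  have hbad : ∀ i, ∀ ρ ∈ T, {c : ℝ | 0 < c ∧ 0 < (volume : Measure (E 2))
      {p | p ∈ (S.chart i).U ∧ c * ‖Zg g ((S.chart i).map p)‖ = ρ}}.Countable := by
    intro i ρ hρ
    have hU : MeasurableSet (S.chart i).U := (S.chart i).isOpen_U.measurableSet
    have hm : AEMeasurable (fun p => ‖Zg g ((S.chart i).map p)‖)
        ((volume : Measure (E 2)).restrict (S.chart i).U) := (hf i).aemeasurable hU
    have hcount := Measure.countable_meas_level_set_pos₀ (μ := (volume : Measure (E 2)).restrict (S.chart i).U)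
      hm.nullMeasurable
    refine Set.MapsTo.countable_of_injOn (f := fun c : ℝ => ρ / c) ?_ ?_ hcount
    · rintro c ⟨hc, hc'⟩
      show 0 < ((volume : Measure (E 2)).restrict (S.chart i).U)
        {p | ‖Zg g ((S.chart i).map p)‖ = ρ / c}
      rw [Measure.restrict_apply' hU]
      refine lt_of_lt_of_le hc' (measure_mono ?_)
      rintro p ⟨hp, hp'⟩
      refine ⟨?_, hp⟩
      show ‖Zg g ((S.chart i).map p)‖ = ρ / c
      rw [eq_div_iff hc.ne', mul_comm]
      exact hp'
    · rintro c ⟨hc, _⟩ c' ⟨hc', _⟩ h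
      have h1 : ρ / c = ρ / c' := h
      have hρ0 := hT ρ hρ
      rw [div_eq_div_iff hc.ne' hc'.ne'] at h1
      exact (mul_left_cancel₀ hρ0.ne' h1).symm
  have hB : (⋃ i, ⋃ ρ ∈ T, {c : ℝ | 0 < c ∧ 0 < (volume : Measure (E 2))
      {p | p ∈ (S.chart i).U ∧ c * ‖Zg g ((S.chart i).map p)‖ = ρ}}).Countable := by
    refine Set.countable_iUnion fun i => ?_
    exact (Finset.countable_toSet T).biUnion fun ρ hρ => hbad i ρ hρ
  obtain ⟨c, hcB, hc1, hc2⟩ := (hB.dense_compl ℝ).exists_between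
    (show max c₀ 0 < 1 from max_lt hc₀ one_pos)
  refine ⟨c, (le_max_left _ _).trans_lt hc1, (le_max_right _ _).trans_lt hc1, hc2, ?_⟩
  intro i ρ hρ
  by_contra hne
  refine hcB ?_
  refine Set.mem_iUnion.2 ⟨i, Set.mem_iUnion₂.2 ⟨ρ, hρ, ?_⟩⟩
  exact ⟨(le_max_right _ _).trans_lt hc1, pos_iff_ne_zero.2 hne⟩

end Pool.Agent.N252.P1_LEV
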