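import Pool.Agent.N657.QL.Stm

/-!
# Project QL, part UNC: the uncertainty relation between the phase and the number of particles
-/

namespace Pool.Agent.N252.QLU

open Finset
open Pool.Agent.N657.QR Pool.Agent.N657.QL

section General

variable {V : Type} [Fintype V] [DecidableEq V]

/-- square summable -/
def L2 (f : (V → ℤ) → ℝ) : Prop := Summable (fun n => f n ^ 2)

omit [Fintype V] [DecidableEq V] in
theorem L2.shift {f : (V → ℤ) → ℝ} (h : L2 f) (v : V → ℤ) : L2 (fun n => f (n + v)) :=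
  ((Equiv.addRight v).summable_iff (f := fun n => f n ^ 2)).2 h

omit [Fintype V] [DecidableEq V] in
theorem L2.mul {f g : (V → ℤ) → ℝ} (hf : L2 f) (hg : L2 g) : Summable (fun n => f n * g n) := by
  refine Summable.of_norm_bounded (hf.add hg) fun n => ?_
  rw [Real.norm_eq_abs, abs_le]
  constructor <;> nlinarith [sq_nonneg (f n + g n), sq_nonneg (f n - g n)]

omit [Fintype V] [DecidableEq V] in
theorem L2.smul {f : (V → ℤ) → ℝ} (hf : L2 f) (c : ℝ) : L2 (fun n => c * f n) := by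
  have : (fun n => (c * f n) ^ 2) = fun n => c ^ 2 * f n ^ 2 := by
    funext n
    ring
  unfold L2
  rw [this]
  exact hf.mul_left _

omit [Fintype V] [DecidableEq V] in
theorem L2.sum {ι : Type} (s : Finset ι) {f : ι → (V → ℤ) → ℝ} (hf : ∀ i, L2 (f i)) :
    L2 (fun n => ∑ i ∈ s, f i n) := by
  have h1 : Summable (fun n => (s.card : ℝ) * ∑ i ∈ s, f i n ^ 2) :=
    (summable_sum fun i _ => hf i).mul_left _
  refine Summable.of_nonneg_of_le (fun n => sq_nonneg _) (fun n => ?_) h1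
  exact sq_sum_le_card_mul_sum_sq

omit [Fintype V] [DecidableEq V] in
theorem L2.sub {f g : (V → ℤ) → ℝ} (hf : L2 f) (hg : L2 g) : L2 (fun n => f n - g n) := by
  refine Summable.of_nonneg_of_le (fun n => sq_nonneg _) (fun n => ?_)
    ((hf.add hg).mul_left 2)
  nlinarith [sq_nonneg (f n + g n)]

omit [Fintype V] [DecidableEq V] in
theorem cs {f g : (V → ℤ) → ℝ} (hf : L2 f) (hg : L2 g) :
    (∑' n, f n * g n) ^ 2 ≤ (∑' n, f n ^ 2) * ∑' n, g n ^ 2 := by
  have hfg := hf.mul hg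
  have h : ∀ t : ℝ, 0 ≤ (∑' n, f n ^ 2) * (t * t) + (2 * ∑' n, f n * g n) * t + ∑' n, g n ^ 2 := by
    intro t
    have e : (∑' n, f n ^ 2) * (t * t) + (2 * ∑' n, f n * g n) * t + ∑' n, g n ^ 2 =
        ∑' n, (t * f n + g n) ^ 2 := by
      have h1 : (fun n => (t * f n + g n) ^ 2) =
          fun n => ((t * t) * f n ^ 2 + (2 * t) * (f n * g n)) + g n ^ 2 := by
        funext n
        ring
      rw [h1, Summable.tsum_add ((Summable.mul_left _ hf).add (Summable.mul_left _ hfg)) hg,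
        Summable.tsum_add (Summable.mul_left _ hf) (Summable.mul_left _ hfg), tsum_mul_left,
        tsum_mul_left]
      ring
    rw [e]
    exact tsum_nonneg fun n => sq_nonneg _
  have h2 := discrim_le_zero h
  unfold discrim at h2
  nlinarith

omit [DecidableEq V] in
/-- norm of a combination of shifts -/
theorem nr_comb {ψ : (V → ℤ) → ℝ} (hψ : L2 ψ) {ι : Type} [Fintype ι] (c : ι → ℝ)
    (v : ι → V → ℤ) :
    ∑' n, (∑ i, c i * ψ (n + v i)) ^ 2 =
      ∑ i, ∑ j, c i * c j * ∑' n, ψ (n + v i) * ψ (n + v j) := by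
  have h1 : (fun n => (∑ i, c i * ψ (n + v i)) ^ 2) =
      fun n => ∑ i, ∑ j, c i * c j * (ψ (n + v i) * ψ (n + v j)) := by
    funext n
    rw [pow_two, sum_mul_sum]
    refine sum_congr rfl fun i _ => sum_congr rfl fun j _ => ?_
    ring
  have h2 : ∀ i j, Summable (fun n => c i * c j * (ψ (n + v i) * ψ (n + v j))) := fun i j =>
    ((hψ.shift (v i)).mul (hψ.shift (v j))).mul_left _
  rw [h1, Summable.tsum_finsetSum (fun i _ => summable_sum fun j _ => h2 i j)]
  refine sum_congr rfl fun i _ => ?_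
  rw [Summable.tsum_finsetSum (fun j _ => h2 i j)]
  refine sum_congr rfl fun j _ => ?_
  rw [tsum_mul_left]

omit [Fintype V] [DecidableEq V] in
/-- averages of shifts do not increase the norm -/
theorem avg {W : (V → ℤ) → ℝ} (hW : L2 W) {ι : Type} [Fintype ι] [Nonempty ι] (v : ι → V → ℤ) :
    ∑' n, ((∑ i, W (n + v i)) / (Fintype.card ι : ℝ)) ^ 2 ≤ ∑' n, W n ^ 2 := by
  have hc : (0 : ℝ) < (Fintype.card ι : ℝ) := by exact_mod_cast Fintype.card_pos
  have hs : ∀ i, Summable (fun n => W (n + v i) ^ 2) := fun i => hW.shift (v i)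
  have h1 : Summable (fun n => (∑ i, W (n + v i) ^ 2) / (Fintype.card ι : ℝ)) :=
    (summable_sum fun i _ => hs i).div_const _
  have h2 : ∀ n, ((∑ i, W (n + v i)) / (Fintype.card ι : ℝ)) ^ 2 ≤
      (∑ i, W (n + v i) ^ 2) / (Fintype.card ι : ℝ) := by
    intro n
    rw [div_pow, div_le_div_iff₀ (by positivity) hc]
    have := sq_sum_le_card_mul_sum_sq (s := (univ : Finset ι)) (f := fun i => W (n + v i))
    rw [card_univ] at this
    nlinarith
  have h3 : Summable (fun n => ((∑ i, W (n + v i)) / (Fintype.card ι : ℝ)) ^ 2) :=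
    Summable.of_nonneg_of_le (fun n => sq_nonneg _) h2 h1
  refine le_trans (h3.tsum_le_tsum h2 h1) ?_
  rw [tsum_div_const, Summable.tsum_finsetSum (fun i _ => hs i)]
  have h4 : ∀ i, ∑' n, W (n + v i) ^ 2 = ∑' n, W n ^ 2 := fun i =>
    (Equiv.addRight (v i)).tsum_eq (fun n => W n ^ 2)
  rw [sum_congr rfl fun i _ => h4 i]
  simp only [sum_const, card_univ, nsmul_eq_mul]
  rw [mul_div_assoc, mul_div_cancel₀ _ hc.ne']

theorem shift_cr (ψ : (V → ℤ) → ℝ) (x y : V) :
    ∑' n, ψ (n + dl x) * ψ (n + dl y) = cr x y ψ := by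
  unfold cr hp
  rw [← (Equiv.addRight (-dl y)).tsum_eq]
  refine tsum_congr fun n => ?_
  simp only [Equiv.coe_addRight]
  congr 2
  · abel
  · abel

theorem shift_cr' (ψ : (V → ℤ) → ℝ) (x y : V) :
    ∑' n, ψ (n + -dl x) * ψ (n + -dl y) = cr y x ψ := by
  unfold cr hp
  rw [← (Equiv.addRight (dl y)).tsum_eq]
  refine tsum_congr fun n => ?_
  simp only [Equiv.coe_addRight]
  congr 2
  · abel

end General

section Main

variable {V : Type} [Fintype V] [DecidableEq V] [Nonempty V]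

/-- the commutator -/
noncomputable def Bf (g : V → ℝ) (ψ : (V → ℤ) → ℝ) (n : V → ℤ) : ℝ :=
  (1 / (2 * (Fintype.card V : ℝ))) * ∑ x, ∑ y, g y * (ψ (hp x y n) - ψ (hp y x n))

theorem Bf_eq (g : V → ℝ) (ψ : (V → ℤ) → ℝ) (n : V → ℤ) : Bf g ψ n =
    ((∑ x, (∑ y, g y * ψ ((n + dl x) + -dl y))) / (Fintype.card V : ℝ) -
      (∑ x, (∑ y, g y * ψ ((n + -dl x) + dl y))) / (Fintype.card V : ℝ)) / 2 := by
  have hc : (Fintype.card V : ℝ) ≠ 0 := by exact_mod_cast Fintype.card_ne_zero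
  unfold Bf
  have h1 : ∑ x, ∑ y, g y * (ψ (hp x y n) - ψ (hp y x n)) =
      (∑ x, (∑ y, g y * ψ ((n + dl x) + -dl y))) - ∑ x, (∑ y, g y * ψ ((n + -dl x) + dl y)) := by
    rw [← sum_sub_distrib]
    refine sum_congr rfl fun x _ => ?_
    rw [← sum_sub_distrib]
    refine sum_congr rfl fun y _ => ?_
    rw [← mul_sub]
    congr 3
    unfold hp
    abel
  rw [h1]
  field_simp

theorem Bf_norm (hB : S_BAS) (g : V → ℝ) (ψ : (V → ℤ) → ℝ) (hψ : L2 ψ) :
    L2 (Bf g ψ) ∧ ∑' n, Bf g ψ n ^ 2 ≤ ∑ x, ∑ y, g x * g y * cr x y ψ := by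
  set W : (V → ℤ) → ℝ := fun m => ∑ y, g y * ψ (m + -dl y) with hW
  set W' : (V → ℤ) → ℝ := fun m => ∑ y, g y * ψ (m + dl y) with hW'
  have hW2 : L2 W := L2.sum _ fun y => (hψ.shift (-dl y)).smul (g y)
  have hW2' : L2 W' := L2.sum _ fun y => (hψ.shift (dl y)).smul (g y)
  have eW : ∑' n, W n ^ 2 = ∑ x, ∑ y, g x * g y * cr x y ψ := by
    rw [hW, nr_comb hψ g (fun y => -dl y)]
    refine sum_congr rfl fun x _ => sum_congr rfl fun y _ => ?_
    rw [shift_cr', hB.crcomm]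
  have eW' : ∑' n, W' n ^ 2 = ∑ x, ∑ y, g x * g y * cr x y ψ := by
    rw [hW', nr_comb hψ g (fun y => dl y)]
    refine sum_congr rfl fun x _ => sum_congr rfl fun y _ => ?_
    rw [shift_cr]
  set A : (V → ℤ) → ℝ := fun n => (∑ x, W (n + dl x)) / (Fintype.card V : ℝ) with hA
  set A' : (V → ℤ) → ℝ := fun n => (∑ x, W' (n + -dl x)) / (Fintype.card V : ℝ) with hA'
  have hA2 : L2 A := by
    have h1 : L2 (fun n => ∑ x, W (n + dl x)) := L2.sum _ fun x => hW2.shift (dl x)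
    have h2 := h1.smul (1 / (Fintype.card V : ℝ))
    have : A = fun n => 1 / (Fintype.card V : ℝ) * ∑ x, W (n + dl x) := by
      funext n
      simp only [hA]
      ring
    rw [this]
    exact h2
  have hA2' : L2 A' := by
    have h1 : L2 (fun n => ∑ x, W' (n + -dl x)) := L2.sum _ fun x => hW2'.shift (-dl x)
    have h2 := h1.smul (1 / (Fintype.card V : ℝ))
    have : A' = fun n => 1 / (Fintype.card V : ℝ) * ∑ x, W' (n + -dl x) := by
      funext n
      simp only [hA']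
      ring
    rw [this]
    exact h2
  have hBe : ∀ n, Bf g ψ n = 1 / 2 * (A n - A' n) := by
    intro n
    rw [Bf_eq]
    simp only [hA, hA', hW, hW']
    ring
  have hBf : Bf g ψ = fun n => 1 / 2 * (A n - A' n) := funext hBe
  have hB2 : L2 (Bf g ψ) := by
    rw [hBf]
    exact (hA2.sub hA2').smul _
  refine ⟨hB2, ?_⟩
  have hle : ∀ n, Bf g ψ n ^ 2 ≤ 1 / 2 * (A n ^ 2 + A' n ^ 2) := by
    intro n
    rw [hBe]
    nlinarith [sq_nonneg (A n + A' n)]
  have hs : Summable (fun n => 1 / 2 * (A n ^ 2 + A' n ^ 2)) := (hA2.add hA2').mul_left _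
  have h1 := Summable.tsum_le_tsum hle hB2 hs
  rw [tsum_mul_left, Summable.tsum_add hA2 hA2'] at h1
  have h2 : ∑' n, A n ^ 2 ≤ ∑' n, W n ^ 2 := avg hW2 (fun x : V => dl x)
  have h3 : ∑' n, A' n ^ 2 ≤ ∑' n, W' n ^ 2 := avg hW2' (fun x : V => -dl x)
  rw [eW] at h2
  rw [eW'] at h3
  linarith

/-- `∑ g_x n_x` -/
def GG (g : V → ℝ) (n : V → ℤ) : ℝ := ∑ x, g x * (n x : ℝ)

omit [Nonempty V] in
theorem GG_hp (g : V → ℝ) (x y : V) (n : V → ℤ) : GG g (hp x y n) = GG g n + g x - g y := by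
  unfold GG hp dl
  have h : ∀ z : V, ∑ a, g a * (((Pi.single z 1 : V → ℤ) a : ℤ) : ℝ) = g z := by
    intro z
    rw [sum_eq_single z]
    · simp
    · intro b _ hb
      simp [Pi.single_eq_of_ne hb]
    · intro h
      exact absurd (mem_univ z) h
  have h2 : ∑ a, g a * (((n + Pi.single x 1 - Pi.single y 1 : V → ℤ) a : ℤ) : ℝ) =
      ∑ a, (g a * (n a : ℝ) + g a * (((Pi.single x 1 : V → ℤ) a : ℤ) : ℝ) -
        g a * (((Pi.single y 1 : V → ℤ) a : ℤ) : ℝ)) := by
    refine sum_congr rfl fun a _ => ?_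
    simp only [Pi.add_apply, Pi.sub_apply]
    push_cast
    ring
  rw [h2, sum_sub_distrib, sum_add_distrib, h x, h y]

omit [Nonempty V] in
theorem GG_L2 (g : V → ℝ) (ψ : (V → ℤ) → ℝ) (hψ : FE ψ) : L2 (fun n => GG g n * ψ n) := by
  have h1 : Summable (fun n => (∑ x, g x ^ 2) * (Pool.Agent.N657.QR.sq n * ψ n ^ 2)) :=
    hψ.2.mul_left _
  refine Summable.of_nonneg_of_le (fun n => sq_nonneg _) (fun n => ?_) h1
  rw [mul_pow, ← mul_assoc]
  refine mul_le_mul_of_nonneg_right ?_ (sq_nonneg _)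
  unfold GG Pool.Agent.N657.QR.sq
  exact sum_mul_sq_le_sq_mul_sq univ g (fun x => (n x : ℝ))

omit [Nonempty V] in
/-- the equivalence of configurations given by a hop -/
def hpE (x y : V) : (V → ℤ) ≃ (V → ℤ) where
  toFun := hp x y
  invFun := hp y x
  left_inv n := by unfold hp; abel
  right_inv n := by unfold hp; abel

theorem comm (g : V → ℝ) (ψ : (V → ℤ) → ℝ) (hψ : FE ψ) :
    ∑' n, (GG g n * ψ n) * Bf g ψ n =
      (1 / (2 * (Fintype.card V : ℝ))) * ∑ x, ∑ y, g y * (g y - g x) * cr x y ψ := by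
  have hL : L2 ψ := hψ.1
  have hG : L2 (fun n => GG g n * ψ n) := GG_L2 g ψ hψ
  have hhp : ∀ x y : V, L2 (fun n => ψ (hp x y n)) := by
    intro x y
    have : (fun n => ψ (hp x y n)) = fun n => ψ (n + (dl x - dl y)) := by
      funext n
      congr 1
      unfold hp
      abel
    rw [this]
    exact hL.shift _
  have hs : ∀ x y, Summable (fun n => (GG g n * ψ n) * (ψ (hp x y n) - ψ (hp y x n))) :=
    fun x y => hG.mul ((hhp x y).sub (hhp y x))
  have key : ∀ x y, ∑' n, (GG g n * ψ n) * (ψ (hp x y n) - ψ (hp y x n)) =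
      (g y - g x) * cr x y ψ := by
    intro x y
    have s1 : Summable (fun n => (GG g n * ψ n) * ψ (hp x y n)) := hG.mul (hhp x y)
    have s2 : Summable (fun n => (GG g n * ψ n) * ψ (hp y x n)) := hG.mul (hhp y x)
    have s3 : Summable (fun n => ψ (hp x y n) * ψ n) := (hhp x y).mul hL
    have e1 : ∑' n, (GG g n * ψ n) * ψ (hp y x n) =
        ∑' n, ((GG g n * ψ n) * ψ (hp x y n) + (g x - g y) * (ψ (hp x y n) * ψ n)) := by
      rw [← (hpE x y).tsum_eq]
      refine tsum_congr fun n => ?_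
      have h1 : (hpE x y) n = hp x y n := rfl
      have h2 : hp y x (hp x y n) = n := (hpE x y).left_inv n
      rw [h1, h2, GG_hp]
      ring
    have e2 : ∑' n, (GG g n * ψ n) * (ψ (hp x y n) - ψ (hp y x n)) =
        ∑' n, (GG g n * ψ n) * ψ (hp x y n) - ∑' n, (GG g n * ψ n) * ψ (hp y x n) := by
      rw [← Summable.tsum_sub s1 s2]
      refine tsum_congr fun n => ?_
      ring
    rw [e2, e1, Summable.tsum_add s1 (s3.mul_left _), tsum_mul_left]
    unfold cr
    ring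
  have e : (fun n => (GG g n * ψ n) * Bf g ψ n) = fun n =>
      (1 / (2 * (Fintype.card V : ℝ))) *
        ∑ x, ∑ y, g y * ((GG g n * ψ n) * (ψ (hp x y n) - ψ (hp y x n))) := by
    funext n
    unfold Bf
    rw [mul_left_comm, mul_sum]
    congr 1
    refine sum_congr rfl fun x _ => ?_
    rw [mul_sum]
    refine sum_congr rfl fun y _ => ?_
    ring
  rw [e, tsum_mul_left]
  congr 1
  rw [Summable.tsum_finsetSum (fun x _ => summable_sum fun y _ => (hs x y).mul_left _)]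
  refine sum_congr rfl fun x _ => ?_
  rw [Summable.tsum_finsetSum (fun y _ => (hs x y).mul_left _)]
  refine sum_congr rfl fun y _ => ?_
  rw [tsum_mul_left, key]
  ring

end Main

section Torus

variable {d L : ℕ} [NeZero L]

/-- translation of configurations -/
def trE (a : Fin d → ZMod L) : ((Fin d → ZMod L) → ℤ) ≃ ((Fin d → ZMod L) → ℤ) where
  toFun n := fun x => n (x + a)
  invFun n := fun x => n (x - a)
  left_inv n := by
    funext x
    simp
  right_inv n := by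
    funext x
    simp

theorem cr_trans (Ψ : ((Fin d → ZMod L) → ℤ) → ℝ)
    (hT : ∀ (a : Fin d → ZMod L) n n', Ψ (fun x => n (x + a)) * Ψ (fun x => n' (x + a)) =
      Ψ n * Ψ n') (x y a : Fin d → ZMod L) : cr x y Ψ = cr (x - a) (y - a) Ψ := by
  unfold cr
  rw [← (trE a).tsum_eq (fun n => Ψ (hp (x - a) (y - a) n) * Ψ n)]
  refine tsum_congr fun n => ?_
  rw [← hT a (hp x y n) n]
  have : (fun z => hp x y n (z + a)) = hp (x - a) (y - a) ((trE a) n) := by
    funext z
    have h1 : ((trE a) n) z = n (z + a) := rfl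
    unfold hp dl
    simp only [Pi.add_apply, Pi.sub_apply, h1]
    have h2 : ∀ w : Fin d → ZMod L, (Pi.single w 1 : (Fin d → ZMod L) → ℤ) (z + a) =
        (Pi.single (w - a) 1 : (Fin d → ZMod L) → ℤ) z := by
      intro w
      rw [Pi.single_apply, Pi.single_apply]
      congr 1
      rw [eq_sub_iff_add_eq]
    rw [h2 x, h2 y]
  rw [this]
  rfl

end Torus

theorem main (hB : S_BAS) (hM : S_M0) (hY : S_SYM) (_hE : S_EIG) : S_UNC := by
  intro d L _ U l Ψ g hU hl hG hg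
  have hFE : FE Ψ := hG.1
  have hm0 := hM d L U l Ψ g hU hl hG hg
  have hT := (hY d L U Ψ hU hG).2
  set V : ℝ := (Fintype.card (Fin d → ZMod L) : ℝ) with hV
  have hV0 : 0 < V := by
    rw [hV]
    exact_mod_cast Fintype.card_pos
  set σ : ℝ := ∑ x, g x ^ 2 with hσ
  set Ng : ℝ := ∑ x, ∑ y, g x * g y * cr x y Ψ with hNg
  set S0 : ℝ := ∑ x, cr x 0 Ψ with hS0
  have hrow : ∀ y, ∑ x, cr x y Ψ = S0 := by
    intro y
    rw [hS0]
    have h1 : ∀ x, cr x y Ψ = cr (x - y) 0 Ψ := by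
      intro x
      rw [cr_trans Ψ hT x y y, sub_self]
    rw [sum_congr rfl fun x _ => h1 x]
    exact Fintype.sum_equiv (Equiv.subRight y) _ _ (fun x => rfl)
  have htot : ∑ x, ∑ y, cr x y Ψ = V * S0 := by
    rw [sum_comm, sum_congr rfl fun y _ => hrow y]
    simp [hV]
  have hcomm := comm g Ψ hFE
  have e1 : ∑ x, ∑ y, g y * (g y - g x) * cr x y Ψ = σ * S0 - Ng := by
    have h1 : ∑ x, ∑ y, g y * (g y - g x) * cr x y Ψ =
        (∑ x, ∑ y, g y ^ 2 * cr x y Ψ) - ∑ x, ∑ y, g x * g y * cr x y Ψ := by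
      rw [← sum_sub_distrib]
      refine sum_congr rfl fun x _ => ?_
      rw [← sum_sub_distrib]
      refine sum_congr rfl fun y _ => ?_
      ring
    rw [h1, sum_comm]
    congr 1
    rw [hσ, sum_mul]
    refine sum_congr rfl fun y _ => ?_
    rw [← mul_sum, hrow]
  rw [e1, ← hV] at hcomm
  obtain ⟨hB2, hBn⟩ := Bf_norm hB g Ψ hFE.1
  rw [← hNg] at hBn
  have hGL := GG_L2 g Ψ hFE
  have hcs := cs hGL hB2
  have hNg0 : 0 ≤ Ng := le_trans (tsum_nonneg fun n => sq_nonneg _) hBn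
  have hσ0 : 0 ≤ σ := sum_nonneg fun x _ => sq_nonneg _
  have e2 : ∑' n, (GG g n * Ψ n) ^ 2 ≤ σ * Real.sqrt (l / (8 * U)) := by
    refine le_trans (le_of_eq ?_) hm0
    refine tsum_congr fun n => ?_
    unfold GG
    ring
  have e3 : (∑' n, (GG g n * Ψ n) * Bf g Ψ n) ^ 2 ≤ σ * Real.sqrt (l / (8 * U)) * Ng := by
    refine le_trans hcs ?_
    exact mul_le_mul e2 hBn (tsum_nonneg fun n => sq_nonneg _)
      (mul_nonneg hσ0 (Real.sqrt_nonneg _))
  rw [hcomm] at e3
  have e4 : Real.sqrt (2 * l / U) = 4 * Real.sqrt (l / (8 * U)) := by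
    have : 2 * l / U = 4 ^ 2 * (l / (8 * U)) := by
      field_simp
      norm_num
    rw [this, Real.sqrt_mul (by norm_num), Real.sqrt_sq (by norm_num)]
  rw [htot, e4]
  have e5 : V * S0 / V ^ 2 * σ - Ng / V = 2 * (1 / (2 * V) * (σ * S0 - Ng)) := by
    field_simp
  rw [e5, mul_pow]
  nlinarith

end Pool.Agent.N252.QLU
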