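import Pool.Agent.N657.QL.Stm3
import Pool.Agent.N252.QL_UNC

/-!
# Project QL: the bilinear form of the energy
-/

namespace Pool.Agent.N252.QLB

open Finset
open Pool.Agent.N657.QR Pool.Agent.N657.QL Pool.Agent.N252.QLU

section General

variable {V : Type} [Fintype V] [DecidableEq V]

omit [DecidableEq V] in
theorem FE_add {χ ψ : (V → ℤ) → ℝ} (h1 : FE χ) (h2 : FE ψ) : FE (χ + ψ) := by
  constructor
  · refine Summable.of_nonneg_of_le (fun n => sq_nonneg _) (fun n => ?_) ((h1.1.add h2.1).mul_left 2)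
    simp only [Pi.add_apply]
    nlinarith [sq_nonneg (χ n - ψ n)]
  · refine Summable.of_nonneg_of_le (fun n => ?_) (fun n => ?_) ((h1.2.add h2.2).mul_left 2)
    · have : 0 ≤ Pool.Agent.N657.QR.sq n := sum_nonneg fun x _ => sq_nonneg _
      exact mul_nonneg this (sq_nonneg _)
    · have : 0 ≤ Pool.Agent.N657.QR.sq n := sum_nonneg fun x _ => sq_nonneg _
      simp only [Pi.add_apply]
      nlinarith [mul_nonneg this (sq_nonneg (χ n - ψ n))]

omit [DecidableEq V] in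
theorem FE_smul {ψ : (V → ℤ) → ℝ} (c : ℝ) (h : FE ψ) : FE (c • ψ) := by
  constructor
  · have e : (fun n => (c • ψ) n ^ 2) = fun n => c ^ 2 * ψ n ^ 2 := by
      funext n
      simp only [Pi.smul_apply, smul_eq_mul]
      ring
    rw [e]
    exact h.1.mul_left _
  · have e : (fun n => Pool.Agent.N657.QR.sq n * (c • ψ) n ^ 2) =
        fun n => c ^ 2 * (Pool.Agent.N657.QR.sq n * ψ n ^ 2) := by
      funext n
      simp only [Pi.smul_apply, smul_eq_mul]
      ring
    rw [e]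
    exact h.2.mul_left _

/-- The space of real wave functions of finite energy. -/
def FEs (V : Type) [Fintype V] : Submodule ℝ ((V → ℤ) → ℝ) where
  carrier := {ψ | FE ψ}
  add_mem' h1 h2 := FE_add h1 h2
  zero_mem' := by
    constructor
    · simp
    · simp
  smul_mem' c _ h := FE_smul c h

omit [DecidableEq V] in
theorem s_ip (χ ψ : FEs V) : Summable (fun n => χ.1 n * ψ.1 n) := L2.mul χ.2.1 ψ.2.1

theorem s_hp (x y : V) (χ ψ : FEs V) : Summable (fun n => χ.1 (hp x y n) * ψ.1 n) := by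
  have h : L2 (fun n => χ.1 (hp x y n)) := by
    have e : (fun n => χ.1 (hp x y n)) = fun n => χ.1 (n + (dl x - dl y)) := by
      funext n
      rw [show hp x y n = n + (dl x - dl y) by unfold hp; abel]
    rw [e]
    exact L2.shift χ.2.1 _
  exact L2.mul h ψ.2.1

theorem s_pot (hB : S_BAS) (K : Matrix V V ℝ) (ν : V → ℝ) (χ ψ : FEs V) :
    Summable (fun n => pot K ν n * (χ.1 n * ψ.1 n)) := by
  obtain ⟨C, hC, h⟩ := hB.potup K ν
  have h1 : Summable (fun n => C * ((χ.1 n ^ 2 + Pool.Agent.N657.QR.sq n * χ.1 n ^ 2) +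
      (ψ.1 n ^ 2 + Pool.Agent.N657.QR.sq n * ψ.1 n ^ 2))) :=
    ((χ.2.1.add χ.2.2).add (ψ.2.1.add ψ.2.2)).mul_left C
  refine Summable.of_norm_bounded h1 fun n => ?_
  rw [Real.norm_eq_abs, abs_mul]
  have hs : 0 ≤ Pool.Agent.N657.QR.sq n := sum_nonneg fun x _ => sq_nonneg _
  have h2 : |χ.1 n * ψ.1 n| ≤ χ.1 n ^ 2 + ψ.1 n ^ 2 := by
    rw [abs_le]
    constructor <;> nlinarith [sq_nonneg (χ.1 n + ψ.1 n), sq_nonneg (χ.1 n - ψ.1 n)]
  calc |pot K ν n| * |χ.1 n * ψ.1 n| ≤ (C * (1 + Pool.Agent.N657.QR.sq n)) *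
        (χ.1 n ^ 2 + ψ.1 n ^ 2) :=
        mul_le_mul (h n) h2 (abs_nonneg _) (mul_nonneg hC (by linarith))
    _ = _ := by ring

/-- the scalar product -/
noncomputable def ip : FEs V →ₗ[ℝ] FEs V →ₗ[ℝ] ℝ :=
  LinearMap.mk₂ ℝ (fun χ ψ => ∑' n, χ.1 n * ψ.1 n)
    (fun a b c => by
      rw [← Summable.tsum_add (s_ip a c) (s_ip b c)]
      refine tsum_congr fun n => ?_
      simp only [Submodule.coe_add, Pi.add_apply]
      ring)
    (fun r a b => by
      rw [smul_eq_mul, ← tsum_mul_left]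
      refine tsum_congr fun n => ?_
      simp only [Submodule.coe_smul, Pi.smul_apply, smul_eq_mul]
      ring)
    (fun a b c => by
      rw [← Summable.tsum_add (s_ip a b) (s_ip a c)]
      refine tsum_congr fun n => ?_
      simp only [Submodule.coe_add, Pi.add_apply]
      ring)
    (fun r a b => by
      rw [smul_eq_mul, ← tsum_mul_left]
      refine tsum_congr fun n => ?_
      simp only [Submodule.coe_smul, Pi.smul_apply, smul_eq_mul]
      ring)

/-- the potential form -/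
noncomputable def bp (hB : S_BAS) (K : Matrix V V ℝ) (ν : V → ℝ) : FEs V →ₗ[ℝ] FEs V →ₗ[ℝ] ℝ :=
  LinearMap.mk₂ ℝ (fun χ ψ => ∑' n, pot K ν n * (χ.1 n * ψ.1 n))
    (fun a b c => by
      rw [← Summable.tsum_add (s_pot hB K ν a c) (s_pot hB K ν b c)]
      refine tsum_congr fun n => ?_
      simp only [Submodule.coe_add, Pi.add_apply]
      ring)
    (fun r a b => by
      rw [smul_eq_mul, ← tsum_mul_left]
      refine tsum_congr fun n => ?_
      simp only [Submodule.coe_smul, Pi.smul_apply, smul_eq_mul]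
      ring)
    (fun a b c => by
      rw [← Summable.tsum_add (s_pot hB K ν a b) (s_pot hB K ν a c)]
      refine tsum_congr fun n => ?_
      simp only [Submodule.coe_add, Pi.add_apply]
      ring)
    (fun r a b => by
      rw [smul_eq_mul, ← tsum_mul_left]
      refine tsum_congr fun n => ?_
      simp only [Submodule.coe_smul, Pi.smul_apply, smul_eq_mul]
      ring)

/-- the form of a hop -/
noncomputable def bh (x y : V) : FEs V →ₗ[ℝ] FEs V →ₗ[ℝ] ℝ :=
  LinearMap.mk₂ ℝ (fun χ ψ => ∑' n, χ.1 (hp x y n) * ψ.1 n)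
    (fun a b c => by
      rw [← Summable.tsum_add (s_hp x y a c) (s_hp x y b c)]
      refine tsum_congr fun n => ?_
      simp only [Submodule.coe_add, Pi.add_apply]
      ring)
    (fun r a b => by
      rw [smul_eq_mul, ← tsum_mul_left]
      refine tsum_congr fun n => ?_
      simp only [Submodule.coe_smul, Pi.smul_apply, smul_eq_mul]
      ring)
    (fun a b c => by
      rw [← Summable.tsum_add (s_hp x y a b) (s_hp x y a c)]
      refine tsum_congr fun n => ?_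
      simp only [Submodule.coe_add, Pi.add_apply]
      ring)
    (fun r a b => by
      rw [smul_eq_mul, ← tsum_mul_left]
      refine tsum_congr fun n => ?_
      simp only [Submodule.coe_smul, Pi.smul_apply, smul_eq_mul]
      ring)

omit [DecidableEq V] in
theorem ip_apply (χ ψ : FEs V) : ip χ ψ = ∑' n, χ.1 n * ψ.1 n := rfl

omit [DecidableEq V] in
theorem ip_comm (χ ψ : FEs V) : ip χ ψ = ip ψ χ := by
  rw [ip_apply, ip_apply]
  exact tsum_congr fun n => mul_comm _ _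

omit [DecidableEq V] in
theorem ip_self (ψ : FEs V) : ip ψ ψ = nr ψ.1 := by
  rw [ip_apply, nr]
  exact tsum_congr fun n => (pow_two _).symm

theorem bh_comm (x y : V) (χ ψ : FEs V) : bh x y χ ψ = bh y x ψ χ := by
  show ∑' n, χ.1 (hp x y n) * ψ.1 n = ∑' n, ψ.1 (hp y x n) * χ.1 n
  rw [← (hpE x y).tsum_eq (fun n => ψ.1 (hp y x n) * χ.1 n)]
  refine tsum_congr fun n => ?_
  have h1 : (hpE x y) n = hp x y n := rfl
  have h2 : hp y x (hp x y n) = n := (hpE x y).left_inv n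
  rw [h1, h2]
  ring

theorem bh_self (x y : V) (ψ : FEs V) : bh x y ψ ψ = cr x y ψ.1 := rfl

/-- The bilinear form of the energy minus `E`. -/
noncomputable def BB (hB : S_BAS) (K : Matrix V V ℝ) (w : V → V → ℝ) (ν : V → ℝ) (E : ℝ) :
    FEs V →ₗ[ℝ] FEs V →ₗ[ℝ] ℝ :=
  bp hB K ν - (∑ x, ∑ y, w x y • ((1 / 2 : ℝ) • (bh x y + bh y x))) - E • ip

theorem BB_apply (hB : S_BAS) (K : Matrix V V ℝ) (w : V → V → ℝ) (ν : V → ℝ) (E : ℝ)
    (χ ψ : FEs V) : BB hB K w ν E χ ψ = bp hB K ν χ ψ -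
      (∑ x, ∑ y, w x y * ((1 / 2 : ℝ) * (bh x y χ ψ + bh y x χ ψ))) - E * ip χ ψ := by
  unfold BB
  simp only [LinearMap.sub_apply, LinearMap.smul_apply, LinearMap.sum_apply, LinearMap.add_apply,
    smul_eq_mul]

theorem BB_self (hB : S_BAS) (K : Matrix V V ℝ) (w : V → V → ℝ) (ν : V → ℝ) (E : ℝ)
    (ψ : FEs V) : BB hB K w ν E ψ ψ = FF K w ν ψ.1 - E * nr ψ.1 := by
  rw [BB_apply, ip_self, FF]
  congr 2
  · show ∑' n, pot K ν n * (ψ.1 n * ψ.1 n) = po K ν ψ.1
    rw [po]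
    exact tsum_congr fun n => by rw [pow_two]
  · refine sum_congr rfl fun x _ => sum_congr rfl fun y _ => ?_
    rw [bh_self, bh_self, hB.crcomm y x]
    ring

theorem BB_comm (hB : S_BAS) (K : Matrix V V ℝ) (w : V → V → ℝ) (ν : V → ℝ) (E : ℝ)
    (χ ψ : FEs V) : BB hB K w ν E χ ψ = BB hB K w ν E ψ χ := by
  rw [BB_apply, BB_apply, ip_comm]
  congr 2
  · show ∑' n, pot K ν n * (χ.1 n * ψ.1 n) = ∑' n, pot K ν n * (ψ.1 n * χ.1 n)
    exact tsum_congr fun n => by ring
  · refine sum_congr rfl fun x _ => sum_congr rfl fun y _ => ?_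
    rw [bh_comm x y χ ψ, bh_comm y x χ ψ]
    ring

/-- the form at an eigenvector -/
theorem BB_eig (hB : S_BAS) (K : Matrix V V ℝ) (w : V → V → ℝ) (ν : V → ℝ) (E e : ℝ)
    (χ ψ : FEs V) (h : ∀ n, pot K ν n * χ.1 n -
      (∑ x, ∑ y, w x y * (χ.1 (hp x y n) + χ.1 (hp y x n))) / 2 = (E + e) * χ.1 n) :
    BB hB K w ν E χ ψ = e * ip χ ψ := by
  rw [BB_apply]
  have e1 : ∑ x, ∑ y, w x y * ((1 / 2 : ℝ) * (bh x y χ ψ + bh y x χ ψ)) =
      ∑' n, (∑ x, ∑ y, w x y * (χ.1 (hp x y n) + χ.1 (hp y x n))) / 2 * ψ.1 n := by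
    have h1 : ∀ x y, Summable (fun n => w x y * ((1 / 2 : ℝ) *
        (χ.1 (hp x y n) * ψ.1 n + χ.1 (hp y x n) * ψ.1 n))) := fun x y =>
      (((s_hp x y χ ψ).add (s_hp y x χ ψ)).mul_left _).mul_left _
    have h2 : (fun n => (∑ x, ∑ y, w x y * (χ.1 (hp x y n) + χ.1 (hp y x n))) / 2 * ψ.1 n) =
        fun n => ∑ x, ∑ y, w x y * ((1 / 2 : ℝ) *
          (χ.1 (hp x y n) * ψ.1 n + χ.1 (hp y x n) * ψ.1 n)) := by
      funext n
      rw [div_mul_eq_mul_div, sum_mul, sum_div]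
      refine sum_congr rfl fun x _ => ?_
      rw [sum_mul, sum_div]
      refine sum_congr rfl fun y _ => ?_
      ring
    rw [h2, Summable.tsum_finsetSum (fun x _ => summable_sum fun y _ => h1 x y)]
    refine sum_congr rfl fun x _ => ?_
    rw [Summable.tsum_finsetSum (fun y _ => h1 x y)]
    refine sum_congr rfl fun y _ => ?_
    rw [tsum_mul_left, tsum_mul_left, Summable.tsum_add (s_hp x y χ ψ) (s_hp y x χ ψ)]
    rfl
  have s1 : Summable (fun n => (∑ x, ∑ y, w x y * (χ.1 (hp x y n) + χ.1 (hp y x n))) / 2 *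
      ψ.1 n) := by
    have h2 : (fun n => (∑ x, ∑ y, w x y * (χ.1 (hp x y n) + χ.1 (hp y x n))) / 2 * ψ.1 n) =
        fun n => pot K ν n * (χ.1 n * ψ.1 n) - (E + e) * (χ.1 n * ψ.1 n) := by
      funext n
      have := h n
      linear_combination (-ψ.1 n) * this
    rw [h2]
    exact (s_pot hB K ν χ ψ).sub ((s_ip χ ψ).mul_left _)
  rw [e1]
  show ∑' n, pot K ν n * (χ.1 n * ψ.1 n) - _ - E * ∑' n, χ.1 n * ψ.1 n = e * ∑' n, χ.1 n * ψ.1 n
  rw [← Summable.tsum_sub (s_pot hB K ν χ ψ) s1, ← tsum_mul_left, ← tsum_mul_left,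
    ← Summable.tsum_sub ((s_pot hB K ν χ ψ).sub s1) ((s_ip χ ψ).mul_left _)]
  refine tsum_congr fun n => ?_
  have := h n
  linear_combination (ψ.1 n) * this

end General

end Pool.Agent.N252.QLB
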