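import Pool.Agent.N252.QL_BIL
import Pool.Agent.N690.QL_M0G

/-!
# Project QL, part INV: the first moment and the first inverse moment of the density wave
(with the lemmas of helper690, part M0G)
-/

namespace Pool.Agent.N252.QLI

open Finset
open Pool.Agent.N657.QR Pool.Agent.N657.QL Pool.Agent.N252.QLB Pool.Agent.N252.QLU
open Pool.Agent.N690.QLM (tr G pot_zero pot_tg energy FE_tr Gs G_neg nnw_nn)

theorem lim0 {a b c : ℝ} (h : ∀ t : ℝ, 0 < t → 0 ≤ a + t * b + t ^ 2 * c) : 0 ≤ a := by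
  by_contra hneg
  push Not at hneg
  set D : ℝ := 2 * (|b| + |c| + 1) with hD
  have hD0 : 0 < D := by positivity
  set t : ℝ := min 1 (-a / D) with ht
  have ht0 : 0 < t := lt_min one_pos (div_pos (by linarith) hD0)
  have ht1 : t ≤ 1 := min_le_left _ _
  have ht2 : t * D ≤ -a := by
    have : t ≤ -a / D := min_le_right _ _
    rwa [le_div_iff₀ hD0] at this
  have h1 := h t ht0
  have h2 : t * b ≤ t * |b| := mul_le_mul_of_nonneg_left (le_abs_self b) ht0.le
  have h3 : t ^ 2 * c ≤ t * |c| := by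
    calc t ^ 2 * c ≤ t ^ 2 * |c| := mul_le_mul_of_nonneg_left (le_abs_self c) (sq_nonneg t)
      _ ≤ t * |c| := mul_le_mul_of_nonneg_right (by nlinarith) (abs_nonneg c)
  rw [hD] at ht2
  nlinarith [abs_nonneg b, abs_nonneg c]

section General

variable {V : Type} [Fintype V] [DecidableEq V] [Nonempty V]

theorem FE_dw {Ψ : (V → ℤ) → ℝ} (h1 : FE Ψ)
    (h4 : Summable fun n => Pool.Agent.N657.QR.sq n ^ 2 * Ψ n ^ 2) (g : V → ℝ) :
    FE (dw g Ψ) := by
  have h2 := FE_tr h1.1 h4 g 1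
  have h3 : dw g Ψ = tr g 1 Ψ + (-1 : ℝ) • Ψ := by
    funext n
    simp only [dw, tr, G, Pi.add_apply, Pi.smul_apply, smul_eq_mul]
    ring
  rw [h3]
  exact FE_add h2 (FE_smul _ h1)

/-- energy in the background `t g` -/
theorem FF_tg (U t : ℝ) (w : V → V → ℝ) (g : V → ℝ) {ψ : (V → ℤ) → ℝ} (h : FE ψ) :
    FF (U • (1 : Matrix V V ℝ)) w (fun x => t * g x) ψ = FF (U • (1 : Matrix V V ℝ)) w 0 ψ -
      2 * U * t * (∑' n, (GG g n * ψ n) * ψ n) + U * t ^ 2 * (∑ x, g x ^ 2) * nr ψ := by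
  have Spo : Summable fun n => pot (U • (1 : Matrix V V ℝ)) 0 n * ψ n ^ 2 := by
    have := h.2.mul_left U
    refine this.congr fun n => ?_
    rw [pot_zero]
    ring
  have SG : Summable fun n => (GG g n * ψ n) * ψ n := (GG_L2 g ψ h).mul h.1
  have hpo : po (U • (1 : Matrix V V ℝ)) (fun x => t * g x) ψ =
      po (U • (1 : Matrix V V ℝ)) 0 ψ - 2 * U * t * (∑' n, (GG g n * ψ n) * ψ n) +
        U * t ^ 2 * (∑ x, g x ^ 2) * nr ψ := by
    have hs : HasSum (fun n => pot (U • (1 : Matrix V V ℝ)) 0 n * ψ n ^ 2 -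
        2 * U * t * ((GG g n * ψ n) * ψ n) + U * t ^ 2 * (∑ x, g x ^ 2) * ψ n ^ 2)
        (po (U • (1 : Matrix V V ℝ)) 0 ψ - 2 * U * t * (∑' n, (GG g n * ψ n) * ψ n) +
        U * t ^ 2 * (∑ x, g x ^ 2) * nr ψ) :=
      (Spo.hasSum.sub (SG.hasSum.mul_left _)).add (h.1.hasSum.mul_left _)
    rw [← hs.tsum_eq]
    unfold po
    refine tsum_congr fun n => ?_
    rw [pot_tg]
    unfold G GG
    ring
  unfold FF
  rw [hpo]
  ring

end General

theorem main (hB : S_BAS) (hLB : Pool.Agent.N657.QR.S_LB) (hE : S_EIG) (hY : S_SYM)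
    (hM : S_MIN) : S_INV := by
  intro d L _ U l Ψ g hU _hl hΨ hg
  set K : Matrix (Fin d → ZMod L) (Fin d → ZMod L) ℝ :=
    U • (1 : Matrix (Fin d → ZMod L) (Fin d → ZMod L) ℝ) with hK
  set E : ℝ := en K (nnw 1) 0 0 with hEd
  have hw : ∀ x y : Fin d → ZMod L, 0 ≤ nnw 1 x y := nnw_nn
  have hpd : K.PosDef := Matrix.PosDef.one.smul hU
  have hps : K.PosSemidef := Matrix.PosSemidef.one.smul hU.le
  obtain ⟨heig, h4⟩ := hE K (nnw 1) 0 0 Ψ hpd hw hΨ
  have hG : Gs U (nnw 1) E Ψ := ⟨hΨ.1.1, h4, heig⟩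
  have hsym : ∀ n, Ψ (-n) ^ 2 = Ψ n ^ 2 := by
    intro n
    have := (hY d L U Ψ hU hΨ).1 n n
    rw [pow_two, pow_two]
    exact this
  have hnr : nr Ψ = 1 := hΨ.2.2.1
  have hfe : FE (dw g Ψ) := FE_dw hΨ.1 h4 g
  set P : FEs (Fin d → ZMod L) := ⟨Ψ, hΨ.1⟩ with hP
  set D : FEs (Fin d → ZMod L) := ⟨dw g Ψ, hfe⟩ with hD
  set B := BB hB K (nnw 1) 0 E with hBd
  have hspan : ∀ ξ : FEs (Fin d → ZMod L), B ξ ξ = xs U ξ.1 := fun ξ =>
    BB_self hB K (nnw 1) 0 E ξ
  have hPz : ∀ ψ, B P ψ = 0 := by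
    intro ψ
    have := BB_eig hB K (nnw 1) 0 E 0 P ψ (fun n => by
      have := heig n
      rw [← this]
      ring)
    rw [hBd, this, zero_mul]
  have hPz' : ∀ ψ, B ψ P = 0 := fun ψ => by rw [hBd, BB_comm, ← hBd, hPz]
  have hsec : Sec 0 (dw g Ψ) := by
    intro n hn
    refine hΨ.2.1 n fun h => hn ?_
    unfold dw
    rw [h, mul_zero]
  refine ⟨hfe, hsec, ?_, ?_⟩
  · -- the first moment
    have h1 : B (P + D) (P + D) = xs U (dw g Ψ) := by
      rw [map_add, map_add, LinearMap.add_apply, LinearMap.add_apply, hPz, hPz, hPz', hspan]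
      ring
    have h2 : B (P + D) (P + D) = FF K (nnw 1) 0 (tr g 1 Ψ) - E * nr (tr g 1 Ψ) := by
      rw [hBd, BB_self]
      have : ((P + D : FEs (Fin d → ZMod L)) : ((Fin d → ZMod L) → ℤ) → ℝ) = tr g 1 Ψ := by
        funext n
        show Ψ n + dw g Ψ n = tr g 1 Ψ n
        unfold dw tr G
        ring
      rw [this]
    have h3 := energy hU hG g 1
    rw [← h1, h2, h3]
    have hm1 : (∑ x, ∑ y, nnw 1 x y * ((g x - g y) ^ 2 * cr x y Ψ)) ≤ l * ∑ x, g x ^ 2 := by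
      have h1 : ∑ x, ∑ y, nnw 1 x y * ((g x - g y) ^ 2 * cr x y Ψ) ≤
          ∑ x, ∑ y, nnw 1 x y * (g x - g y) ^ 2 := by
        refine sum_le_sum fun x _ => sum_le_sum fun y _ => ?_
        have h2 := hB.crle x y Ψ hΨ.1.1
        rw [hnr] at h2
        have h3 := (le_abs_self _).trans h2
        refine mul_le_mul_of_nonneg_left ?_ (hw x y)
        exact mul_le_of_le_one_right (sq_nonneg _) h3
      refine h1.trans (le_of_eq ?_)
      have h5 : ∀ x, ∑ y, nnw 1 x y * (g x - g y) ^ 2 = ∑ i : Fin d, (g x - g (x + ee i)) ^ 2 :=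
        fun x => Pool.Agent.N690.QLM.nnw_sum x (fun y => (g x - g y) ^ 2)
      rw [sum_congr rfl fun x _ => h5 x, Pool.Agent.N690.QLM.grad, mul_sum]
      refine sum_congr rfl fun x _ => ?_
      rw [hg]
      ring
    linarith
  · -- the inverse moment
    intro χ hχ hχs
    set X : FEs (Fin d → ZMod L) := ⟨χ, hχ⟩ with hX
    set σ : ℝ := ∑ x, g x ^ 2 with hσ
    have hσ0 : 0 ≤ σ := sum_nonneg fun x _ => sq_nonneg _
    have SGΨ : L2 (fun n => GG g n * Ψ n) := GG_L2 g Ψ hΨ.1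
    have SGχ : L2 (fun n => GG g n * χ n) := GG_L2 g χ hχ
    have hz : ∑' n, (GG g n * Ψ n) * Ψ n = 0 := Pool.Agent.N690.QLM.tsum_odd _ fun n => by
      have e1 : GG g (-n) = -GG g n := G_neg g n
      have e2 := hsym n
      rw [e1]
      calc -GG g n * Ψ (-n) * Ψ (-n) = -GG g n * Ψ (-n) ^ 2 := by ring
        _ = _ := by rw [e2]; ring
    set p : ℝ := ∑' n, χ n * dw g Ψ n with hp
    set q : ℝ := ∑' n, (GG g n * χ n) * χ n with hq
    have key : ∀ t : ℝ, 0 < t → 0 ≤ (4 * U ^ 2 * B X X - 8 * U ^ 2 * p + U * σ) +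
        t * (4 * U ^ 2 * σ * ip P X - 8 * U ^ 3 * q) + t ^ 2 * (4 * U ^ 3 * σ * ip X X) := by
      intro t ht
      set κ : ℝ := 2 * U * t with hκ
      set ψ : FEs (Fin d → ZMod L) := P + κ • X with hψ
      have hψn : ∀ n, ψ.1 n = Ψ n + κ * χ n := fun n => rfl
      have hψs : Sec 0 ψ.1 := by
        intro n hn
        by_cases h0 : Ψ n = 0
        · refine hχs n fun h => hn ?_
          rw [hψn, h0, h, mul_zero, add_zero]
        · exact hΨ.2.1 n h0
      have hlb := hLB K (nnw 1) (fun x => t * g x) 0 ψ.1 hps hw ψ.2 hψs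
      have hmin := hM K (nnw 1) (fun x => t * g x) 0 hps hw
      have hn0 : 0 ≤ nr ψ.1 := tsum_nonneg fun n => sq_nonneg _
      have hff := FF_tg U t (nnw 1) g ψ.2
      rw [← hK] at hff
      rw [hff] at hlb
      have h6 := mul_le_mul_of_nonneg_right hmin hn0
      have h7 : B ψ ψ = FF K (nnw 1) 0 ψ.1 - E * nr ψ.1 := BB_self hB K (nnw 1) 0 E ψ
      have h8 : B ψ ψ = κ ^ 2 * B X X := by
        rw [hψ]
        simp only [map_add, LinearMap.add_apply, map_smul, LinearMap.smul_apply, smul_eq_mul]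
        rw [hPz, hPz, hPz']
        ring
      have h9 : nr ψ.1 = 1 + 2 * κ * ip P X + κ ^ 2 * ip X X := by
        rw [← ip_self, hψ]
        simp only [map_add, LinearMap.add_apply, map_smul, LinearMap.smul_apply, smul_eq_mul]
        have : ip P P = 1 := by rw [ip_self]; exact hnr
        rw [this, ip_comm X P]
        ring
      have h10 : ∑' n, (GG g n * ψ.1 n) * ψ.1 n = 2 * κ * p + κ ^ 2 * q := by
        have hs : HasSum (fun n => (GG g n * Ψ n) * Ψ n + 2 * κ * ((GG g n * Ψ n) * χ n) +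
            κ ^ 2 * ((GG g n * χ n) * χ n)) ((∑' n, (GG g n * Ψ n) * Ψ n) +
            2 * κ * (∑' n, (GG g n * Ψ n) * χ n) + κ ^ 2 * ∑' n, (GG g n * χ n) * χ n) :=
          ((SGΨ.mul hΨ.1.1).hasSum.add ((SGΨ.mul hχ.1).hasSum.mul_left _)).add
            ((SGχ.mul hχ.1).hasSum.mul_left _)
        have e1 : ∑' n, (GG g n * Ψ n) * χ n = p := by
          rw [hp]
          refine tsum_congr fun n => ?_
          unfold dw GG
          ring
        rw [hz, zero_add, e1, ← hq] at hs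
        rw [← hs.tsum_eq]
        refine tsum_congr fun n => ?_
        rw [hψn]
        ring
      have h11 : 0 ≤ κ ^ 2 * B X X - 2 * U * t * (2 * κ * p + κ ^ 2 * q) +
          U * t ^ 2 * σ * (1 + 2 * κ * ip P X + κ ^ 2 * ip X X) := by
        rw [← h8, ← h10, ← h9, h7]
        linarith
      have h12 : κ ^ 2 * B X X - 2 * U * t * (2 * κ * p + κ ^ 2 * q) +
          U * t ^ 2 * σ * (1 + 2 * κ * ip P X + κ ^ 2 * ip X X) =
          t ^ 2 * ((4 * U ^ 2 * B X X - 8 * U ^ 2 * p + U * σ) +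
          t * (4 * U ^ 2 * σ * ip P X - 8 * U ^ 3 * q) + t ^ 2 * (4 * U ^ 3 * σ * ip X X)) := by
        rw [hκ]
        ring
      rw [h12] at h11
      exact nonneg_of_mul_nonneg_right h11 (by positivity)
    have h1 := lim0 key
    rw [hspan] at h1
    rw [le_div_iff₀ (by positivity)]
    have h2 : (2 * p - xs U χ) * (4 * U) * U ≤ σ * U := by
      have : xs U X.1 = xs U χ := rfl
      rw [this] at h1
      nlinarith
    exact le_of_mul_le_mul_right h2 hU

end Pool.Agent.N252.QLI
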