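import Pool.Agent.N657.QL.Stm
import Mathlib.Analysis.Fourier.AddCircleMulti

/-!
# Project QL, part MEAS: the distribution of the angles of a square summable function on `ℤ^V`
-/

namespace Pool.Agent.N252.QLM

open MeasureTheory Filter Topology UnitAddTorus
open scoped ComplexConjugate ENNReal NNReal
open Pool.Agent.N657.QR Pool.Agent.N657.QL

/-- The measure on `ℝ / ℤ` is normalised to have total volume 1. -/
noncomputable local instance : MeasureSpace UnitAddCircle := ⟨AddCircle.haarAddCircle⟩

local instance : Measure.IsAddHaarMeasure (volume : Measure UnitAddCircle) :=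
  inferInstanceAs (Measure.IsAddHaarMeasure AddCircle.haarAddCircle)

local instance : IsProbabilityMeasure (volume : Measure UnitAddCircle) :=
  inferInstanceAs (IsProbabilityMeasure AddCircle.haarAddCircle)

variable {V : Type} [Fintype V]

/-- a function in `L²` with given Fourier coefficients -/
theorem exF (ψ : (V → ℤ) → ℝ) (hs : Summable (fun n => ψ n ^ 2)) :
    ∃ F : Lp ℂ 2 (volume : Measure (UnitAddTorus V)), ∀ n, mFourierCoeff F n = (ψ n : ℂ) := by
  have hm : Memℓp (fun n : V → ℤ => (ψ n : ℂ)) 2 := by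
    refine memℓp_gen ?_
    have : (fun n : V → ℤ => ‖((ψ n : ℝ) : ℂ)‖ ^ (2 : ℝ≥0∞).toReal) = fun n => ψ n ^ 2 := by
      funext n
      simp
    rw [this]
    exact hs
  refine ⟨mFourierBasis.repr.symm ⟨fun n : V → ℤ => (ψ n : ℂ), hm⟩, fun n => ?_⟩
  rw [← mFourierBasis_repr, LinearIsometryEquiv.apply_symm_apply]

theorem norm_mF (η : V → ℤ) (t : UnitAddTorus V) : ‖mFourier η t‖ = 1 := by
  simp only [mFourier, fourier_apply, ContinuousMap.coe_mk, norm_prod, Circle.norm_coe,
      Finset.prod_const_one]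

theorem coefs (ψ : (V → ℤ) → ℝ) (F : Lp ℂ 2 (volume : Measure (UnitAddTorus V)))
    (hF : ∀ n, mFourierCoeff F n = (ψ n : ℂ)) (η : V → ℤ) :
    ∫ t, mFourier η t * ((‖F t‖ ^ 2 : ℝ) : ℂ) = ((∑' n, ψ (n + η) * ψ n : ℝ) : ℂ) := by
  have hG : MemLp (fun t => mFourier η t * F t) 2 (volume : Measure (UnitAddTorus V)) := by
    refine (Lp.memLp F).congr_norm ?_ ?_
    · exact (mFourier η).continuous.aestronglyMeasurable.mul (Lp.aestronglyMeasurable F)
    · filter_upwards with t
      rw [norm_mul, norm_mF, one_mul]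
  set G : Lp ℂ 2 (volume : Measure (UnitAddTorus V)) := hG.toLp _ with hGd
  have hGa : G =ᵐ[volume] fun t => mFourier η t * F t := hG.coeFn_toLp
  have hGc : ∀ n, mFourierCoeff G n = (ψ (n - η) : ℂ) := by
    intro n
    rw [← hF (n - η)]
    refine integral_congr_ae ?_
    filter_upwards [hGa] with t ht
    rw [ht]
    simp only [smul_eq_mul]
    rw [show -(n - η) = -n + η by abel, mFourier_add]
    ring
  have h := hasSum_prod_mFourierCoeff F G
  have e1 : ∫ t, conj (F t) * G t = ∫ t, mFourier η t * ((‖F t‖ ^ 2 : ℝ) : ℂ) := by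
    refine integral_congr_ae ?_
    filter_upwards [hGa] with t ht
    rw [ht]
    have : conj (F t) * F t = ((‖F t‖ ^ 2 : ℝ) : ℂ) := by
      rw [mul_comm, Complex.mul_conj, Complex.normSq_eq_norm_sq]
    rw [← this]
    ring
  rw [← e1, ← h.tsum_eq]
  simp only [hF, hGc, Complex.conj_ofReal]
  rw [Complex.ofReal_tsum]
  rw [← (Equiv.addRight η).tsum_eq]
  simp

theorem lint (ψ : (V → ℤ) → ℝ) (F : Lp ℂ 2 (volume : Measure (UnitAddTorus V)))
    (hF : ∀ n, mFourierCoeff F n = (ψ n : ℂ)) (h1 : nr ψ = 1) :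
    ∫ t, (‖F t‖ ^ 2 : ℝ) = 1 := by
  have h := coefs ψ F hF 0
  have e : ∫ t, mFourier (0 : V → ℤ) t * ((‖F t‖ ^ 2 : ℝ) : ℂ) = ((∫ t, (‖F t‖ ^ 2 : ℝ) : ℝ) : ℂ) := by
    rw [← integral_complex_ofReal]
    simp [mFourier_zero]
  rw [e] at h
  have h' := Complex.ofReal_injective h
  rw [h', ← h1, nr]
  refine tsum_congr fun n => ?_
  rw [add_zero, pow_two]

/-- representatives of the angles -/
noncomputable def rep (t : UnitAddTorus V) : V → ℝ :=
  fun v => 2 * Real.pi * ((AddCircle.measurableEquivIoc 1 0 (t v) : Set.Ioc (0 : ℝ) (0 + 1)) : ℝ)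

omit [Fintype V] in
theorem rep_meas : Measurable (rep (V := V)) := by
  refine measurable_pi_lambda _ fun v => ?_
  refine Measurable.const_mul ?_ _
  exact measurable_subtype_coe.comp ((AddCircle.measurableEquivIoc 1 0).measurable.comp
    (measurable_pi_apply v))

theorem mF_rep (η : V → ℤ) (t : UnitAddTorus V) :
    mFourier η t = Complex.exp (((∑ x, (η x : ℝ) * rep t x : ℝ) : ℂ) * Complex.I) := by
  have h0 : ∀ v, (((AddCircle.measurableEquivIoc 1 0 (t v) : Set.Ioc (0 : ℝ) (0 + 1)) : ℝ) :
      UnitAddCircle) = t v := by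
    intro v
    exact (AddCircle.equivIoc 1 0).symm_apply_apply (t v)
  simp only [mFourier, ContinuousMap.coe_mk]
  have : ∀ v, fourier (η v) (t v) = Complex.exp ((((η v : ℝ) * rep t v : ℝ) : ℂ) * Complex.I) := by
    intro v
    conv_lhs => rw [← h0 v]
    rw [fourier_coe_apply]
    congr 1
    simp only [rep]
    push_cast
    ring
  simp only [this]
  rw [← Complex.exp_sum]
  congr 1
  push_cast
  rw [Finset.sum_mul]

theorem main : S_MEAS := by
  intro V _ _ ψ hs h1
  obtain ⟨F, hF⟩ := exF ψ hs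
  have hFm : Measurable (fun t : UnitAddTorus V => F t) := (Lp.stronglyMeasurable F).measurable
  have hint : Integrable (fun t : UnitAddTorus V => (‖F t‖ ^ 2 : ℝ)) :=
    (Lp.memLp F).integrable_norm_pow (by norm_num)
  have hI := lint ψ F hF h1
  set ρ : UnitAddTorus V → ℝ≥0 := fun t => ‖F t‖₊ ^ 2 with hρ
  have hρm : Measurable ρ := hFm.nnnorm.pow_const 2
  set ν : Measure (UnitAddTorus V) := volume.withDensity (fun t => (ρ t : ℝ≥0∞)) with hν
  have hνint : ∀ g : UnitAddTorus V → ℂ, ∫ t, g t ∂ν = ∫ t, g t * ((‖F t‖ ^ 2 : ℝ) : ℂ) := by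
    intro g
    rw [hν, integral_withDensity_eq_integral_smul hρm]
    refine integral_congr_ae ?_
    filter_upwards with t
    simp only [hρ, NNReal.smul_def, NNReal.coe_pow, coe_nnnorm, Complex.real_smul]
    rw [mul_comm]
  have hν1 : ν Set.univ = 1 := by
    rw [hν, withDensity_apply _ MeasurableSet.univ, Measure.restrict_univ]
    have h2 := integral_eq_lintegral_of_nonneg_ae (μ := (volume : Measure (UnitAddTorus V)))
      (f := fun t => (‖F t‖ ^ 2 : ℝ)) (by filter_upwards with t; positivity) hint.1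
    rw [hI] at h2
    have h3 : ∫⁻ t : UnitAddTorus V, ENNReal.ofReal (‖F t‖ ^ 2) = 1 := by
      have := (ENNReal.toReal_eq_one_iff _).1 h2.symm
      exact this
    rw [← h3]
    refine lintegral_congr fun t => ?_
    simp only [hρ]
    rw [← ENNReal.ofReal_coe_nnreal]
    simp
  have hνp : IsProbabilityMeasure ν := ⟨hν1⟩
  refine ⟨ν.map rep, Measure.isProbabilityMeasure_map rep_meas.aemeasurable, fun η => ?_⟩
  have hc : ∫ t, Complex.exp (((∑ x, (η x : ℝ) * rep t x : ℝ) : ℂ) * Complex.I) ∂ν =
      ((∑' n, ψ (n + η) * ψ n : ℝ) : ℂ) := by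
    rw [← coefs ψ F hF η, hνint]
    refine integral_congr_ae ?_
    filter_upwards with t
    rw [mF_rep]
  have hme : Measurable (fun t : UnitAddTorus V => (∑ x, (η x : ℝ) * rep t x : ℝ)) := by
    refine Finset.measurable_sum _ fun x _ => ?_
    exact ((measurable_pi_apply x).comp rep_meas).const_mul _
  have hie : Integrable (fun t : UnitAddTorus V =>
      Complex.exp (((∑ x, (η x : ℝ) * rep t x : ℝ) : ℂ) * Complex.I)) ν := by
    refine Integrable.of_bound (C := 1) ?_ ?_
    · exact (Complex.measurable_exp.comp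
        ((Complex.measurable_ofReal.comp hme).mul_const _)).aestronglyMeasurable
    · filter_upwards with t
      rw [Complex.norm_exp_ofReal_mul_I]
  have hmθ : Measurable (fun θ : V → ℝ => (∑ x, (η x : ℝ) * θ x : ℝ)) := by fun_prop
  constructor
  · rw [integral_map (f := fun θ : V → ℝ => Real.cos (∑ x, (η x : ℝ) * θ x))
      rep_meas.aemeasurable (Real.continuous_cos.measurable.comp hmθ).aestronglyMeasurable]
    have h2 := congrArg Complex.re hc
    rw [Complex.ofReal_re] at h2
    rw [← h2]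
    have h3 := integral_re hie
    simp only [RCLike.re_eq_complex_re] at h3
    rw [← h3]
    refine integral_congr_ae ?_
    filter_upwards with t
    rw [Complex.exp_ofReal_mul_I_re]
  · rw [integral_map (f := fun θ : V → ℝ => Real.sin (∑ x, (η x : ℝ) * θ x))
      rep_meas.aemeasurable (Real.continuous_sin.measurable.comp hmθ).aestronglyMeasurable]
    have h2 := congrArg Complex.im hc
    rw [Complex.ofReal_im] at h2
    rw [← h2]
    have h3 := integral_im hie
    simp only [RCLike.im_eq_complex_im] at h3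
    rw [← h3]
    refine integral_congr_ae ?_
    filter_upwards with t
    rw [Complex.exp_ofReal_mul_I_im]

end Pool.Agent.N252.QLM
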