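import Pool.Agent.N657.QL.Stm3

/-!
# Project QL, part MOD: Bogoliubov's theory for every mode (assembly)
-/

namespace Pool.Agent.N252.QLMD

open Finset MeasureTheory
open Pool.Agent.N657.QR Pool.Agent.N657.QL

theorem card_eq (d L : ℕ) [NeZero L] :
    (Fintype.card (Fin d → ZMod L) : ℝ) = (L : ℝ) ^ d := by
  rw [Fintype.card_fun, ZMod.card, Fintype.card_fin]
  push_cast
  rfl

theorem N_eq {V : Type} [Fintype V] [DecidableEq V] (μ : Measure (V → ℝ)) [IsProbabilityMeasure μ]
    (g : V → ℝ) (c : V → V → ℝ) (h : ∀ x y, c x y = ∫ θ, Real.cos (θ x - θ y) ∂μ) :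
    ∑ x, ∑ y, g x * g y * c x y = ∫ θ, Nf g θ ∂μ := by
  have hi : ∀ x y, Integrable (fun θ : V → ℝ => g x * g y * Real.cos (θ x - θ y)) μ := by
    intro x y
    refine Integrable.const_mul ?_ _
    refine Integrable.of_bound (C := 1) ?_ ?_
    · exact (Real.continuous_cos.measurable.comp
        ((measurable_pi_apply x).sub (measurable_pi_apply y))).aestronglyMeasurable
    · filter_upwards with θ
      rw [Real.norm_eq_abs]
      exact Real.abs_cos_le_one _
  have e : (fun θ : V → ℝ => Nf g θ) = fun θ => ∑ x, ∑ y, g x * g y * Real.cos (θ x - θ y) := by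
    funext θ
    unfold Nf Xf Yf
    rw [pow_two, pow_two, sum_mul_sum, sum_mul_sum, ← sum_add_distrib]
    refine sum_congr rfl fun x _ => ?_
    rw [← sum_add_distrib]
    refine sum_congr rfl fun y _ => ?_
    rw [Real.cos_sub]
    ring
  rw [e, integral_finsetSum _ (fun x _ => integrable_finsetSum _ fun y _ => hi x y)]
  refine sum_congr rfl fun x _ => ?_
  rw [integral_finsetSum _ (fun y _ => hi x y)]
  refine sum_congr rfl fun y _ => ?_
  rw [integral_const_mul, h]

theorem main (hB : S_BAS) (hN : Pool.Agent.N657.QR.S_NEU) (hEnv : S_ENV) (hU : S_UPK)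
    (hM : S_M0) (hN1 : S_UNM) (hI : S_INV) : S_MOD := by
  intro d hd ε hε
  obtain ⟨C, hC, hNeu⟩ := hN d hd
  set e : ℝ := min ε 1 / 8 with he
  have he0 : 0 < e := by positivity
  have he1 : e ≤ 1 / 8 := by
    have : min ε 1 ≤ 1 := min_le_right _ _
    rw [he]
    linarith
  have heε : 8 * e ≤ ε := by
    have : min ε 1 ≤ ε := min_le_left _ _
    rw [he]
    linarith
  obtain ⟨U₀, hU₀, hUP⟩ := hU d hd e he0
  refine ⟨min U₀ ((e / (2 * C)) ^ 2), by positivity, fun U hU0 hUle => ?_⟩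
  obtain ⟨L₀, hL₀⟩ := hUP U hU0 (hUle.trans (min_le_left _ _))
  refine ⟨max L₀ (⌈Real.sqrt U / e⌉₊ + 1), fun L _ hLL hLe Ψ hΨ l g hl hg => ?_⟩
  have hL1 : L₀ ≤ L := (le_max_left _ _).trans hLL
  have hL2 : ⌈Real.sqrt U / e⌉₊ + 1 ≤ L := (le_max_right _ _).trans hLL
  have hLpos : 0 < L := by omega
  have hLr : (0 : ℝ) < L := by exact_mod_cast hLpos
  have hLr1 : (1 : ℝ) ≤ L := by exact_mod_cast hLpos
  have hl0 : 0 < l := lt_of_lt_of_le (by positivity) hl
  set V : ℝ := (Fintype.card (Fin d → ZMod L) : ℝ) with hV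
  have hVL : (L : ℝ) ^ 2 ≤ V := by
    rw [hV, card_eq]
    exact pow_le_pow_right₀ hLr1 hd
  have hV0 : 0 < V := lt_of_lt_of_le (by positivity) hVL
  set σ : ℝ := ∑ x, g x ^ 2 with hσ
  have hσ0 : 0 ≤ σ := sum_nonneg fun x _ => sq_nonneg _
  set N : ℝ := ∑ x, ∑ y, g x * g y * cr x y Ψ with hNd
  obtain ⟨μ, hμ, hcr⟩ := hEnv d L U Ψ hLe hU0 hΨ
  haveI := hμ.prob
  have hNint : N = ∫ θ, Nf g θ ∂μ := N_eq μ g (fun x y => cr x y Ψ) hcr
  have hN0 : 0 ≤ N := by
    rw [hNint]
    exact integral_nonneg fun θ => by unfold Nf; positivity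
  set a : ℝ := Real.sqrt (U / (2 * l)) with ha
  set b : ℝ := Real.sqrt (l / (8 * U)) with hb
  set om : ℝ := Real.sqrt (2 * U * l) with hom
  have ha0 : 0 < a := Real.sqrt_pos.2 (by positivity)
  have hb0 : 0 < b := Real.sqrt_pos.2 (by positivity)
  have hom0 : 0 < om := Real.sqrt_pos.2 (by positivity)
  have hab : a * b = 1 / 4 := by
    rw [ha, hb, ← Real.sqrt_mul (by positivity)]
    have : U / (2 * l) * (l / (8 * U)) = (1 / 4) ^ 2 := by
      field_simp
      norm_num
    rw [this, Real.sqrt_sq (by norm_num)]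
  have hob : om * b = l / 2 := by
    rw [hom, hb, ← Real.sqrt_mul (by positivity)]
    have : 2 * U * l * (l / (8 * U)) = (l / 2) ^ 2 := by
      field_simp
      norm_num
    rw [this, Real.sqrt_sq (by positivity)]
  have hNup : N ≤ (1 + e) * σ * a := by
    rw [hNint]
    exact hL₀ L hL1 μ hμ l g hl hg
  set m0 : ℝ := nr (dw g Ψ) with hm0
  have hm00 : 0 ≤ m0 := tsum_nonneg fun n => sq_nonneg _
  have hm0up : m0 ≤ σ * b := by
    refine le_trans (le_of_eq ?_) (hM d L U l Ψ g hU0 hl0 hΨ hg)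
    rw [hm0, nr]
    refine tsum_congr fun n => ?_
    unfold dw
    ring
  set c : ℝ := (∑ x, ∑ y, cr x y Ψ) / V ^ 2 with hc
  have hc1 : 1 - e / 2 ≤ c := by
    have h1 := hNeu L U 1 Ψ hLe hU0 one_pos hΨ
    rw [div_one, ← hV] at h1
    have h2 : C * Real.sqrt U ≤ e / 2 := by
      have h3 : Real.sqrt U ≤ e / (2 * C) := by
        rw [Real.sqrt_le_left (by positivity)]
        exact hUle.trans (min_le_right _ _)
      calc C * Real.sqrt U ≤ C * (e / (2 * C)) := mul_le_mul_of_nonneg_left h3 hC.le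
        _ = e / 2 := by field_simp
    rw [hc, le_div_iff₀ (by positivity)]
    refine le_trans ?_ h1
    exact mul_le_mul_of_nonneg_right (by linarith) (by positivity)
  have hNV : N / V ≤ e / 2 * σ := by
    have h1 : a ≤ L * Real.sqrt U / 5 := by
      rw [ha, Real.sqrt_le_left (by positivity)]
      have h2 : U / (2 * l) ≤ U / (2 * (16 / (L : ℝ) ^ 2)) := by gcongr
      refine h2.trans ?_
      rw [div_pow, mul_pow, Real.sq_sqrt hU0.le]
      have h3 : U / (2 * (16 / (L : ℝ) ^ 2)) = (L : ℝ) ^ 2 * U / 32 := by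
        field_simp
        norm_num
      rw [h3]
      have h4 : 0 ≤ (L : ℝ) ^ 2 * U := by positivity
      norm_num
      linarith
    have h5 : Real.sqrt U ≤ e * L := by
      have h6 : Real.sqrt U / e ≤ L := by
        refine (Nat.le_ceil _).trans ?_
        exact_mod_cast (by omega : ⌈Real.sqrt U / e⌉₊ ≤ L)
      rw [div_le_iff₀ he0] at h6
      linarith
    rw [div_le_iff₀ hV0]
    have h7 : (1 + e) * σ * a ≤ 2 * σ * (L * (e * L) / 5) := by
      have h8 : a ≤ L * (e * L) / 5 := h1.trans (by gcongr)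
      have h9 : (1 + e) * σ ≤ 2 * σ := mul_le_mul_of_nonneg_right (by linarith) hσ0
      exact mul_le_mul h9 h8 ha0.le (by positivity)
    have h10 : 2 * σ * (L * (e * L) / 5) ≤ e / 2 * σ * (L : ℝ) ^ 2 := by
      have : 0 ≤ σ * e * (L : ℝ) ^ 2 := by positivity
      nlinarith
    have h11 : e / 2 * σ * (L : ℝ) ^ 2 ≤ e / 2 * σ * V :=
      mul_le_mul_of_nonneg_left hVL (by positivity)
    linarith
  have hunm := hN1 d L U l Ψ g hU0 hl0 hΨ hg
  rw [← hV, ← hσ, ← hNd, ← hc, ← hm0] at hunm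
  have hkey : ((1 - e) * σ) ^ 2 ≤ 4 * m0 * N := by
    refine le_trans ?_ hunm
    have h1 : (1 - e) * σ ≤ c * σ - N / V := by
      have := mul_le_mul_of_nonneg_right hc1 hσ0
      linarith
    exact pow_le_pow_left₀ (mul_nonneg (by linarith) hσ0) h1 2
  have hA : (1 - e) ^ 2 * (σ * b) ≤ (1 + e) * m0 := by
    rcases hσ0.eq_or_lt with h0 | h0
    · rw [← h0]
      have : 0 ≤ (1 + e) * m0 := by positivity
      linarith
    · have h1 : ((1 - e) * σ) ^ 2 ≤ 4 * m0 * ((1 + e) * σ * a) :=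
        hkey.trans (mul_le_mul_of_nonneg_left hNup (by positivity))
      have h2 : (1 - e) ^ 2 * σ ≤ 4 * m0 * ((1 + e) * a) := by
        have h3 : (1 - e) ^ 2 * σ * σ ≤ 4 * m0 * ((1 + e) * a) * σ := by nlinarith
        exact le_of_mul_le_mul_right h3 h0
      have h4 := mul_le_mul_of_nonneg_right h2 hb0.le
      calc (1 - e) ^ 2 * (σ * b) = (1 - e) ^ 2 * σ * b := by ring
        _ ≤ 4 * m0 * ((1 + e) * a) * b := h4
        _ = 4 * (1 + e) * m0 * (a * b) := by ring
        _ = (1 + e) * m0 := by rw [hab]; ring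
  have hBb : (1 - e) ^ 2 * (σ * a) ≤ N := by
    rcases hσ0.eq_or_lt with h0 | h0
    · rw [← h0]
      linarith
    · have h1 : ((1 - e) * σ) ^ 2 ≤ 4 * (σ * b) * N := by
        refine hkey.trans ?_
        have := mul_le_mul_of_nonneg_right hm0up hN0
        linarith
      have h2 : (1 - e) ^ 2 * σ ≤ 4 * b * N := by
        have h3 : (1 - e) ^ 2 * σ * σ ≤ 4 * b * N * σ := by nlinarith
        exact le_of_mul_le_mul_right h3 h0
      have h4 := mul_le_mul_of_nonneg_right h2 ha0.le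
      calc (1 - e) ^ 2 * (σ * a) = (1 - e) ^ 2 * σ * a := by ring
        _ ≤ 4 * b * N * a := h4
        _ = 4 * N * (a * b) := by ring
        _ = N := by rw [hab]; ring
  have h1e : 1 - ε ≤ (1 - e) ^ 2 := by nlinarith
  have h2e : 1 + e ≤ (1 + ε) * (1 - e) ^ 2 := by
    have h1 : (1 + 8 * e) * (1 - e) ^ 2 ≤ (1 + ε) * (1 - e) ^ 2 :=
      mul_le_mul_of_nonneg_right (by linarith) (sq_nonneg _)
    refine le_trans ?_ h1
    nlinarith [mul_nonneg he0.le he0.le, mul_nonneg (mul_nonneg he0.le he0.le) he0.le]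
  have hC3 : σ * b ≤ (1 + ε) * m0 := by
    have h3 : (1 - e) ^ 2 * (σ * b) ≤ (1 - e) ^ 2 * ((1 + ε) * m0) := by
      refine hA.trans ?_
      have := mul_le_mul_of_nonneg_right h2e hm00
      linarith
    exact le_of_mul_le_mul_left h3 (by
      have : 0 < 1 - e := by linarith
      positivity)
  obtain ⟨hI1, hI2, hI3, hI4⟩ := hI d L U l Ψ g hU0 hl0 hΨ hg
  have hq0 : 0 < (1 - e) ^ 2 := by
    have : 0 < 1 - e := by linarith
    positivity
  refine ⟨?_, ?_, ?_, hm0up, ?_, ?_⟩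
  · calc (1 - ε) * σ * a = (1 - ε) * (σ * a) := by ring
      _ ≤ (1 - e) ^ 2 * (σ * a) := mul_le_mul_of_nonneg_right h1e (by positivity)
      _ ≤ N := hBb
  · refine hNup.trans ?_
    have : (1 + e) * (σ * a) ≤ (1 + ε) * (σ * a) :=
      mul_le_mul_of_nonneg_right (by linarith) (by positivity)
    linarith
  · -- `(1 - ε) σ b ≤ m0`
    rcases le_or_gt ε 1 with h1 | h1
    · have h3 := mul_le_mul_of_nonneg_left hC3 (show 0 ≤ 1 - ε by linarith)
      have h4 : (1 - ε) * ((1 + ε) * m0) ≤ m0 := by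
        have : 0 ≤ ε ^ 2 * m0 := by positivity
        nlinarith
      calc (1 - ε) * σ * b = (1 - ε) * (σ * b) := by ring
        _ ≤ _ := h3
        _ ≤ m0 := h4
    · have : 0 ≤ (ε - 1) * (σ * b) := mul_nonneg (by linarith) (by positivity)
      nlinarith
  · refine hI3.trans ?_
    calc l / 2 * σ = om * (σ * b) := by rw [← hob]; ring
      _ ≤ om * ((1 + ε) * m0) := mul_le_mul_of_nonneg_left hC3 hom0.le
      _ = (1 + ε) * om * m0 := by ring
  · intro χ hχ hχs
    refine (hI4 χ hχ hχs).trans ?_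
    have h1 : σ / (4 * U) = σ * b / om := by
      rw [div_eq_div_iff (by positivity) hom0.ne']
      have h2 : om ^ 2 = 2 * U * l := Real.sq_sqrt (by positivity)
      have h3 : om * om = 4 * U * (om * b) := by
        rw [hob, ← pow_two, h2]
        ring
      have h4 : om = 4 * U * b := by
        have := mul_left_cancel₀ hom0.ne' (show om * om = om * (4 * U * b) by rw [h3]; ring)
        exact this
      rw [h4]
      ring
    have h5 : (∑ x, g x ^ 2) / (4 * U) = σ * b / om := h1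
    rw [h5, div_mul_eq_mul_div]
    gcongr

end Pool.Agent.N252.QLMD
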