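import Pool.Agent.N657.QL.Stm

/-!
# Project QL, part RIE: convergence of lattice sums with an integrable singularity
-/

namespace Pool.Agent.N252.QLR

open MeasureTheory Filter Topology Set
open Pool.Agent.N657.QR Pool.Agent.N657.QL

/-- the summand -/
noncomputable def g {d : ℕ} (y : Fin d → ℝ) : ℝ :=
  1 / Real.sqrt (∑ i : Fin d, (2 - 2 * Real.cos (2 * Real.pi * y i)))

/-- majorant in one variable -/
noncomputable def w (t : ℝ) : ℝ := t ^ (-(1 / 2) : ℝ) + (1 - t) ^ (-(1 / 2) : ℝ)

/-- lattice approximation -/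
noncomputable def fl {d : ℕ} (L : ℕ) (x : Fin d → ℝ) : Fin d → ℝ :=
  fun i => (⌊x i * (L : ℝ)⌋₊ : ℝ) / (L : ℝ)

theorem cos_low (t : ℝ) (h0 : 0 ≤ t) (h1 : t ≤ 1) :
    (4 * min t (1 - t)) ^ 2 ≤ 2 - 2 * Real.cos (2 * Real.pi * t) := by
  have e : 2 - 2 * Real.cos (2 * Real.pi * t) = (2 * Real.sin (Real.pi * t)) ^ 2 := by
    have := Real.cos_sq (Real.pi * t)
    have h2 := Real.sin_sq_add_cos_sq (Real.pi * t)
    rw [show 2 * (Real.pi * t) = 2 * Real.pi * t by ring] at this
    nlinarith
  have hs : 2 * min t (1 - t) ≤ Real.sin (Real.pi * t) := by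
    rcases le_total t (1 - t) with h | h
    · rw [min_eq_left h]
      have := Real.mul_le_sin (x := Real.pi * t) (by positivity) (by nlinarith [Real.pi_pos])
      calc 2 * t = 2 / Real.pi * (Real.pi * t) := by field_simp
        _ ≤ _ := this
    · rw [min_eq_right h]
      have := Real.mul_le_sin (x := Real.pi * (1 - t))
        (mul_nonneg Real.pi_pos.le (by linarith)) (by nlinarith [Real.pi_pos])
      have e2 : Real.sin (Real.pi * (1 - t)) = Real.sin (Real.pi * t) := by
        rw [show Real.pi * (1 - t) = Real.pi - Real.pi * t by ring, Real.sin_pi_sub]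
      rw [e2] at this
      calc 2 * (1 - t) = 2 / Real.pi * (Real.pi * (1 - t)) := by field_simp
        _ ≤ _ := this
  have hm : 0 ≤ min t (1 - t) := le_min h0 (by linarith)
  rw [e]
  exact pow_le_pow_left₀ (by positivity) (by linarith) 2

theorem term_nonneg (t : ℝ) : 0 ≤ 2 - 2 * Real.cos (2 * Real.pi * t) := by
  have := Real.cos_le_one (2 * Real.pi * t)
  linarith

/-- the lattice points and the step function -/
theorem IL_eq (d L : ℕ) [NeZero L] :
    IL d L = ∫ x in Set.pi univ (fun _ : Fin d => Ico (0 : ℝ) 1), g (fl L x) := by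
  classical
  have hL : (0 : ℝ) < L := by exact_mod_cast Nat.pos_of_ne_zero (NeZero.ne L)
  set S : Set (Fin d → ℝ) := Set.pi univ (fun _ : Fin d => Ico (0 : ℝ) 1) with hS
  set q : (Fin d → ℝ) → (Fin d → ZMod L) := fun x i => ((⌊x i * (L : ℝ)⌋₊ : ℕ) : ZMod L) with hq
  let _ : MeasurableSpace (Fin d → ZMod L) := ⊤
  have hqm : Measurable q := by
    have h1 : Measurable (fun x : Fin d → ℝ => fun i => ⌊x i * (L : ℝ)⌋₊) := by
      refine measurable_pi_lambda _ fun i => ?_
      exact Nat.measurable_floor.comp ((measurable_pi_apply i).mul_const _)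
    have h2 : Measurable (fun (m : Fin d → ℕ) => (fun i => ((m i : ℕ) : ZMod L) : Fin d → ZMod L)) :=
      measurable_of_countable _
    exact h2.comp h1
  set G : (Fin d → ZMod L) → ℝ := fun k => g (fun i => ((k i).val : ℝ) / (L : ℝ)) with hG
  have hSm : MeasurableSet S := MeasurableSet.univ_pi fun _ => measurableSet_Ico
  have hfl : ∀ x ∈ S, ∀ i, ⌊x i * (L : ℝ)⌋₊ < L := by
    intro x hx i
    have hxi := hx i (mem_univ i)
    rw [Nat.floor_lt (mul_nonneg hxi.1 hL.le)]
    nlinarith [hxi.2]
  have e1 : ∫ x in S, g (fl L x) = ∫ x in S, G (q x) := by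
    refine setIntegral_congr_fun hSm fun x hx => ?_
    simp only [hG, hq]
    congr 1
    funext i
    rw [ZMod.val_natCast_of_lt (hfl x hx i)]
    rfl
  have e2 : ∫ x in S, G (q x) = ∫ k, G k ∂((volume.restrict S).map q) := by
    rw [integral_map hqm.aemeasurable]
    exact (measurable_from_top (f := G)).aestronglyMeasurable
  have : IsFiniteMeasure (volume.restrict S) := by
    refine ⟨?_⟩
    rw [Measure.restrict_apply_univ, hS, Real.volume_pi_Ico]
    simp
  have e3 : ∫ k, G k ∂((volume.restrict S).map q) =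
      ∑ k, ((volume.restrict S).map q).real {k} • G k := by
    refine integral_fintype ?_
    exact Integrable.of_finite
  have e4 : ∀ k, ((volume.restrict S).map q).real {k} = 1 / (L : ℝ) ^ d := by
    intro k
    rw [Measure.real, Measure.map_apply hqm (MeasurableSpace.measurableSet_top),
      Measure.restrict_apply (hqm MeasurableSpace.measurableSet_top)]
    have hset : q ⁻¹' {k} ∩ S =
        Set.pi univ (fun i => Ico (((k i).val : ℝ) / L) ((((k i).val : ℝ) + 1) / L)) := by
      ext x
      constructor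
      · rintro ⟨hx1, hx2⟩ i _
        have hk : q x i = k i := congrFun hx1 i
        have hv : (k i).val = ⌊x i * (L : ℝ)⌋₊ := by
          rw [← hk]
          simp only [hq]
          rw [ZMod.val_natCast_of_lt (hfl x hx2 i)]
        have hxi := hx2 i (mem_univ i)
        have ha := Nat.floor_le (mul_nonneg hxi.1 hL.le)
        have hb := Nat.lt_floor_add_one (x i * (L : ℝ))
        constructor
        · rw [div_le_iff₀ hL, hv]
          exact ha
        · rw [lt_div_iff₀ hL, hv]
          exact hb
      · intro hx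
        have hlt : ∀ i, (k i).val < L := fun i => ZMod.val_lt (k i)
        have hxS : x ∈ S := by
          intro i _
          have hxi := hx i (mem_univ i)
          constructor
          · exact le_trans (by positivity) hxi.1
          · refine lt_of_lt_of_le hxi.2 ?_
            rw [div_le_one hL]
            exact_mod_cast hlt i
        refine ⟨?_, hxS⟩
        show q x = k
        funext i
        have hxi := hx i (mem_univ i)
        have hfl2 : ⌊x i * (L : ℝ)⌋₊ = (k i).val := by
          rw [Nat.floor_eq_iff (mul_nonneg (hxS i (mem_univ i)).1 hL.le)]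
          constructor
          · have := hxi.1
            rwa [div_le_iff₀ hL] at this
          · have := hxi.2
            rwa [lt_div_iff₀ hL] at this
        simp only [hq]
        rw [hfl2]
        exact ZMod.natCast_zmod_val (k i)
    rw [hset, Real.volume_pi_Ico_toReal]
    · have : ∀ i : Fin d, (((k i).val : ℝ) + 1) / L - ((k i).val : ℝ) / L = 1 / L := by
        intro i
        ring
      simp only [this, Finset.prod_const, Finset.card_univ, Fintype.card_fin]
      rw [one_div_pow]
    · intro i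
      show ((k i).val : ℝ) / L ≤ (((k i).val : ℝ) + 1) / L
      gcongr
      linarith
  rw [e1, e2, e3, IL]
  simp only [e4, smul_eq_mul]
  rw [← Finset.mul_sum]
  have hcard : (Fintype.card (Fin d → ZMod L) : ℝ) = (L : ℝ) ^ d := by
    rw [Fintype.card_fun, ZMod.card, Fintype.card_fin]
    push_cast
    rfl
  rw [hcard, div_eq_mul_one_div, mul_comm]
  congr 1
  have hG0 : G 0 = 0 := by
    simp [hG, g]
  rw [← Finset.add_sum_erase Finset.univ G (Finset.mem_univ 0), hG0, zero_add]
  refine Finset.sum_congr rfl fun k _ => ?_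
  simp only [hG, g, lam]
  congr 2
  refine Finset.sum_congr rfl fun i _ => ?_
  rw [mul_div_assoc]

theorem w_int : IntegrableOn w (Ico (0 : ℝ) 1) := by
  have h1 : IntervalIntegrable (fun t : ℝ => t ^ (-(1 / 2) : ℝ)) volume 0 1 :=
    intervalIntegral.intervalIntegrable_rpow' (by norm_num)
  have h2 : IntervalIntegrable (fun t : ℝ => (1 - t) ^ (-(1 / 2) : ℝ)) volume 0 1 := by
    have := (h1.comp_sub_left 1).symm
    simpa using this
  have h3 := h1.add h2
  rw [intervalIntegrable_iff_integrableOn_Ico_of_le zero_le_one] at h3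
  exact h3

theorem w_low (t : ℝ) (h0 : 0 < t) (h1 : t < 1) : 1 ≤ w t ∧ 1 ≤ w t ^ 2 * min t (1 - t) := by
  have a1 : (1 : ℝ) ≤ t ^ (-(1 / 2) : ℝ) :=
    Real.one_le_rpow_of_pos_of_le_one_of_nonpos h0 h1.le (by norm_num)
  have a2 : 0 < (1 - t) ^ (-(1 / 2) : ℝ) := Real.rpow_pos_of_pos (by linarith) _
  have a3 : 0 < t ^ (-(1 / 2) : ℝ) := Real.rpow_pos_of_pos h0 _
  have sqe : ∀ s : ℝ, 0 < s → (s ^ (-(1 / 2) : ℝ)) ^ 2 * s = 1 := by
    intro s hs
    rw [← Real.rpow_natCast, ← Real.rpow_mul hs.le]
    norm_num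
    rw [Real.rpow_neg_one]
    exact inv_mul_cancel₀ hs.ne'
  constructor
  · unfold w
    linarith
  · rcases le_total t (1 - t) with h | h
    · rw [min_eq_left h]
      refine le_trans (sqe t h0).symm.le ?_
      have h2 : t ^ (-(1 / 2) : ℝ) ≤ w t := by
        unfold w
        linarith
      exact mul_le_mul_of_nonneg_right (pow_le_pow_left₀ a3.le h2 2) h0.le
    · rw [min_eq_right h]
      refine le_trans (sqe (1 - t) (by linarith)).symm.le ?_
      have h2 : (1 - t) ^ (-(1 / 2) : ℝ) ≤ w t := by
        unfold w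
        linarith
      exact mul_le_mul_of_nonneg_right (pow_le_pow_left₀ a2.le h2 2) (by linarith)

theorem fl_bound {d : ℕ} (L : ℕ) (hL : 0 < L) (x : Fin (d + 2) → ℝ)
    (hx : ∀ i, 0 < x i ∧ x i < 1) : g (fl L x) ≤ ∏ i, w (x i) := by
  have hL' : (0 : ℝ) < L := by exact_mod_cast hL
  set y := fl L x with hy
  have hy0 : ∀ i, 0 ≤ y i := fun i => by simp only [hy, fl]; positivity
  have hyx : ∀ i, y i ≤ x i := by
    intro i
    simp only [hy, fl]
    rw [div_le_iff₀ hL']
    exact Nat.floor_le (mul_nonneg (hx i).1.le hL'.le)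
  have hxy : ∀ i, x i < y i + 1 / L := by
    intro i
    simp only [hy, fl]
    rw [← add_div, lt_div_iff₀ hL']
    exact Nat.lt_floor_add_one _
  have hyL : ∀ i, y i + 1 / L ≤ 1 := by
    intro i
    simp only [hy, fl]
    rw [← add_div, div_le_one hL']
    have : ⌊x i * (L : ℝ)⌋₊ < L := by
      rw [Nat.floor_lt (mul_nonneg (hx i).1.le hL'.le)]
      nlinarith [(hx i).2]
    exact_mod_cast this
  have h1L : (0 : ℝ) < 1 / L := by positivity
  have hw1 : ∀ i, 1 ≤ w (x i) := fun i => (w_low _ (hx i).1 (hx i).2).1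
  have hprod : w (x 0) * w (x 1) ≤ ∏ i, w (x i) := by
    rw [Fin.prod_univ_succ, Fin.prod_univ_succ]
    have : (1 : ℝ) ≤ ∏ i : Fin d, w (x i.succ.succ) := by
      calc (1 : ℝ) = ∏ i : Fin d, (1 : ℝ) := by simp
        _ ≤ _ := Finset.prod_le_prod (fun i _ => zero_le_one) (fun i _ => hw1 _)
    have h3 : 0 ≤ w (x 0) := le_trans zero_le_one (hw1 0)
    have h4 : 0 ≤ w (x 1) := le_trans zero_le_one (hw1 1)
    have h5 : w (x 1) ≤ w (x 1) * ∏ i : Fin d, w (x i.succ.succ) := le_mul_of_one_le_right h4 this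
    exact mul_le_mul_of_nonneg_left h5 h3
  set s : ℝ := ∑ i, (2 - 2 * Real.cos (2 * Real.pi * y i)) with hs
  have hs0 : 0 ≤ s := Finset.sum_nonneg fun i _ => term_nonneg _
  have hp0 : 0 ≤ ∏ i, w (x i) := le_trans (by
    have := hw1 0
    have := hw1 1
    positivity) hprod
  have hsi : ∀ i, (4 * min (y i) (1 - y i)) ^ 2 ≤ s := by
    intro i
    refine le_trans (cos_low (y i) (hy0 i) (by linarith [hyL i])) ?_
    exact Finset.single_le_sum (f := fun i => (2 - 2 * Real.cos (2 * Real.pi * y i)))
      (fun j _ => term_nonneg _) (Finset.mem_univ i)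
  by_cases hyz : ∀ i, y i = 0
  · have : g y = 0 := by simp [g, hyz]
    rw [this]
    exact hp0
  · push Not at hyz
    obtain ⟨j, hj⟩ := hyz
    have hjL : 1 / (L : ℝ) ≤ y j := by
      simp only [hy, fl] at hj ⊢
      have : (1 : ℝ) ≤ (⌊x j * (L : ℝ)⌋₊ : ℝ) := by
        have h : ⌊x j * (L : ℝ)⌋₊ ≠ 0 := by
          intro h
          apply hj
          rw [h]
          simp
        exact_mod_cast Nat.one_le_iff_ne_zero.2 h
      gcongr
    set r := Real.sqrt s with hr
    have hrr : r ^ 2 = s := Real.sq_sqrt hs0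
    have hr0 : 0 ≤ r := Real.sqrt_nonneg _
    have hri : ∀ i, 4 * min (y i) (1 - y i) ≤ r := by
      intro i
      refine Real.le_sqrt_of_sq_le (hsi i)
    have hrL : 4 * (1 / (L : ℝ)) ≤ r := by
      refine le_trans ?_ (hri j)
      have : 1 / (L : ℝ) ≤ min (y j) (1 - y j) := le_min hjL (by linarith [hyL j])
      linarith
    have hrx : ∀ i, 2 * min (x i) (1 - x i) ≤ r := by
      intro i
      have h1 : min (x i) (1 - x i) ≤ min (y i) (1 - y i) + 1 / L := by
        rcases le_total (y i) (1 - y i) with h | h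
        · rw [min_eq_left h]
          exact le_trans (min_le_left _ _) (hxy i).le
        · rw [min_eq_right h]
          refine le_trans (min_le_right _ _) ?_
          linarith [hxy i, hyx i]
      linarith [hri i]
    have hδ : ∀ i, 0 < min (x i) (1 - x i) := fun i => lt_min (hx i).1 (by linarith [(hx i).2])
    have hr1 : 0 < r := lt_of_lt_of_le (by have := hδ 0; positivity) (hrx 0)
    have hgy : g y = 1 / r := rfl
    rw [hgy, div_le_iff₀ hr1]
    refine le_trans ?_ (mul_le_mul_of_nonneg_right hprod hr0)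
    have hw0 := (w_low _ (hx 0).1 (hx 0).2).2
    have hw1' := (w_low _ (hx 1).1 (hx 1).2).2
    have hm : 1 ≤ (w (x 0) * w (x 1) * r) ^ 2 := by
      have h2 : min (x 0) (1 - x 0) * min (x 1) (1 - x 1) ≤ r ^ 2 := by
        have := hrx 0
        have := hrx 1
        have := hδ 0
        have := hδ 1
        rw [pow_two]
        refine mul_le_mul (by linarith) (by linarith) (by linarith) hr0
      calc (1 : ℝ) ≤ (w (x 0) ^ 2 * min (x 0) (1 - x 0)) * (w (x 1) ^ 2 * min (x 1) (1 - x 1)) := by
            exact one_le_mul_of_one_le_of_one_le hw0 hw1'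
        _ = (w (x 0) ^ 2 * w (x 1) ^ 2) * (min (x 0) (1 - x 0) * min (x 1) (1 - x 1)) := by ring
        _ ≤ (w (x 0) ^ 2 * w (x 1) ^ 2) * r ^ 2 := by gcongr
        _ = _ := by ring
    have hnn : 0 ≤ w (x 0) * w (x 1) * r := by
      have := hw1 0
      have := hw1 1
      positivity
    nlinarith

theorem main : S_RIE := by
  intro d hd
  obtain ⟨d, rfl⟩ := Nat.exists_eq_add_of_le' hd
  set S : Set (Fin (d + 2) → ℝ) := Set.pi univ (fun _ => Ico (0 : ℝ) 1) with hS
  have hSm : MeasurableSet S := MeasurableSet.univ_pi fun _ => measurableSet_Ico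
  have hId : Pool.Agent.N657.QL.Id (d + 2) = ∫ x in S, g x := by
    have hae : S =ᵐ[volume] Icc (0 : Fin (d + 2) → ℝ) 1 :=
      Measure.univ_pi_Ico_ae_eq_Icc (f := (0 : Fin (d + 2) → ℝ)) (g := 1)
    rw [setIntegral_congr_set hae]
    rfl
  rw [hId]
  have hIL : (fun n : ℕ => IL (d + 2) (n + 1)) = fun n : ℕ => ∫ x in S, g (fl (n + 1) x) := by
    funext n
    exact IL_eq (d + 2) (n + 1)
  rw [hIL]
  have hgm : Measurable (g (d := d + 2)) := by
    unfold g
    fun_prop
  have hflm : ∀ L : ℕ, Measurable (fl (d := d + 2) L) := by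
    intro L
    refine measurable_pi_lambda _ fun i => ?_
    have h1 : Measurable (fun x : Fin (d + 2) → ℝ => ⌊x i * (L : ℝ)⌋₊) :=
      Nat.measurable_floor.comp ((measurable_pi_apply i).mul_const _)
    exact (measurable_from_nat.comp h1).div_const _
  have hopen : ∀ᵐ x ∂(volume.restrict S), ∀ i, 0 < x i ∧ x i < 1 := by
    have hae : (Set.pi univ (fun _ : Fin (d + 2) => Ioo (0 : ℝ) 1)) =ᵐ[volume] S :=
      (Measure.univ_pi_Ioo_ae_eq_Icc (f := (0 : Fin (d + 2) → ℝ)) (g := 1)).trans
        (Measure.univ_pi_Ico_ae_eq_Icc (f := (0 : Fin (d + 2) → ℝ)) (g := 1)).symm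
    have h2 : volume.restrict S =
        volume.restrict (Set.pi univ (fun _ : Fin (d + 2) => Ioo (0 : ℝ) 1)) :=
      (Measure.restrict_congr_set hae).symm
    rw [h2]
    filter_upwards [ae_restrict_mem (MeasurableSet.univ_pi fun _ => measurableSet_Ioo)] with x hx i
    exact hx i (mem_univ i)
  refine tendsto_integral_of_dominated_convergence (fun x => ∏ i, w (x i)) ?_ ?_ ?_ ?_
  · intro n
    exact (hgm.comp (hflm _)).aestronglyMeasurable
  · have h : volume.restrict S = Measure.pi (fun _ : Fin (d + 2) => volume.restrict (Ico (0 : ℝ) 1)) :=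
      Measure.restrict_pi_pi _ _
    rw [h]
    exact Integrable.fintype_prod fun _ => w_int
  · intro n
    filter_upwards [hopen] with x hx
    rw [Real.norm_of_nonneg (by unfold g; positivity)]
    exact fl_bound (n + 1) (Nat.succ_pos n) x hx
  · filter_upwards [hopen] with x hx
    have hc : ContinuousAt (g (d := d + 2)) x := by
      have hco : Continuous (fun y : Fin (d + 2) → ℝ =>
          Real.sqrt (∑ i, (2 - 2 * Real.cos (2 * Real.pi * y i)))) := by
        refine Real.continuous_sqrt.comp (continuous_finsetSum _ fun i _ => ?_)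
        exact continuous_const.sub (continuous_const.mul
          (Real.continuous_cos.comp (continuous_const.mul (continuous_apply i))))
      unfold g
      refine ContinuousAt.div continuousAt_const hco.continuousAt ?_
      refine (Real.sqrt_pos.2 ?_).ne'
      refine Finset.sum_pos (fun i _ => ?_) ⟨0, Finset.mem_univ 0⟩
      have h1 := cos_low (x i) (hx i).1.le (hx i).2.le
      have h2 : 0 < min (x i) (1 - x i) := lt_min (hx i).1 (by linarith [(hx i).2])
      have : 0 < (4 * min (x i) (1 - x i)) ^ 2 := by positivity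
      linarith
    refine hc.tendsto.comp ?_
    rw [tendsto_pi_nhds]
    intro i
    have h1 := tendsto_nat_floor_mul_div_atTop (R := ℝ) (hx i).1.le
    have h2 : Tendsto (fun n : ℕ => ((n + 1 : ℕ) : ℝ)) atTop atTop :=
      tendsto_natCast_atTop_atTop.comp (tendsto_add_atTop_nat 1)
    exact h1.comp h2

end Pool.Agent.N252.QLR
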