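import Pool.Agent.N657.QL.Stm
import Pool.Agent.N157.QR_FOU
import Pool.Agent.N252.QL_RIE

/-!
# Project QL, part PLA: plane waves on the torus (with the lemmas of helper157, part QR/FOU)
-/

namespace Pool.Agent.N252.QLP

open Finset
open Pool.Agent.N657.QR Pool.Agent.N657.QL Pool.Agent.N157.QR_FOU

variable {d L : ℕ} [NeZero L]

theorem ps_dot (k x : Fin d → ZMod L) : ps (dot k x) =
    Complex.exp (((2 * Real.pi * (∑ i, ((k i).val : ℝ) * ((x i).val : ℝ)) / (L : ℝ) : ℝ) : ℂ) *
      Complex.I) := by
  have h : dot k x = (((∑ i, ((k i).val : ℤ) * ((x i).val : ℤ) : ℤ)) : ZMod L) := by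
    unfold dot
    push_cast
    refine sum_congr rfl fun i _ => ?_
    rw [ZMod.natCast_zmod_val, ZMod.natCast_zmod_val]
  rw [h, ps, ZMod.stdAddChar_coe]
  congr 1
  push_cast
  ring

theorem ck_eq (k : Fin d → ZMod L) : ck k = cc k := by
  funext x
  unfold ck cc
  rw [ps_dot, Complex.exp_ofReal_mul_I_re]

theorem sk_eq (k : Fin d → ZMod L) : sk k = ss k := by
  funext x
  unfold sk ss
  rw [ps_dot, Complex.exp_ofReal_mul_I_im]

omit [NeZero L] in
theorem dot_comm (k x : Fin d → ZMod L) : dot k x = dot x k := by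
  unfold dot
  exact sum_congr rfl fun i _ => mul_comm _ _

omit [NeZero L] in
theorem dot_neg (k x : Fin d → ZMod L) : dot k (-x) = -dot k x := by
  unfold dot
  simp

omit [NeZero L] in
theorem dot_three (k x : Fin d → ZMod L) : dot (3 • k) x = dot k x + dot k x + dot k x := by
  unfold dot
  rw [← sum_add_distrib, ← sum_add_distrib]
  refine sum_congr rfl fun i _ => ?_
  simp only [Pi.smul_apply, nsmul_eq_mul]
  push_cast
  ring

theorem sum_char' (k : Fin d → ZMod L) (hk : k ≠ 0) :
    ∑ a : Fin d → ZMod L, ps (dot k (-a)) = 0 := by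
  have h1 : ∑ a : Fin d → ZMod L, ps (dot k (-a)) = ∑ a : Fin d → ZMod L, ps (dot k a) :=
    Fintype.sum_equiv (Equiv.neg _) _ _ (fun a => rfl)
  rw [h1]
  have h2 := sum_char k
  rw [if_neg hk] at h2
  rw [← h2]
  exact sum_congr rfl fun a _ => by rw [dot_comm]

theorem cub_gen (k : Fin d → ZMod L) (hk : k ≠ 0) (hk3 : 3 • k ≠ 0) (c e : ℂ)
    (f : (Fin d → ZMod L) → ℝ)
    (hf : ∀ x, (f x : ℂ) = c * ps (dot k x) + e * (starRingEnd ℂ) (ps (dot k x))) : Cub f := by
  set E : (Fin d → ZMod L) → ℂ := fun a => ps (dot k (-a)) with hE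
  have hE1 : ∑ a, E a = 0 := sum_char' k hk
  have hE3 : ∑ a, E a ^ 3 = 0 := by
    have h := sum_char' (3 • k) hk3
    rw [← h]
    refine sum_congr rfl fun a _ => ?_
    rw [dot_three, ps_add, ps_add]
    simp only [hE]
    ring
  have hE1' : ∑ a, (starRingEnd ℂ) (E a) = 0 := by
    rw [← map_sum, hE1, map_zero]
  have hE3' : ∑ a, (starRingEnd ℂ) (E a) ^ 3 = 0 := by
    have : ∑ a, (starRingEnd ℂ) (E a) ^ 3 = (starRingEnd ℂ) (∑ a, E a ^ 3) := by
      rw [map_sum]
      exact sum_congr rfl fun a _ => by rw [map_pow]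
    rw [this, hE3, map_zero]
  have hEE : ∀ a, E a * (starRingEnd ℂ) (E a) = 1 := fun a => ps_mul_conj _
  have hfa : ∀ x a, (f (x - a) : ℂ) = c * (ps (dot k x) * E a) +
      e * ((starRingEnd ℂ) (ps (dot k x)) * (starRingEnd ℂ) (E a)) := by
    intro x a
    have : ps (dot k (x - a)) = ps (dot k x) * E a := by
      rw [sub_eq_add_neg, dot_add, ps_add]
    rw [hf, this, map_mul]
  constructor
  · intro x
    have : ((∑ a, f (x - a) : ℝ) : ℂ) = 0 := by
      push_cast
      calc ∑ a, (f (x - a) : ℂ) = ∑ a, ((c * ps (dot k x)) * E a +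
          (e * (starRingEnd ℂ) (ps (dot k x))) * (starRingEnd ℂ) (E a)) := by
            refine sum_congr rfl fun a _ => ?_
            rw [hfa]
            ring
        _ = 0 := by
            rw [sum_add_distrib, ← mul_sum, ← mul_sum, hE1, hE1']
            ring
    exact_mod_cast this
  · intro x y z
    have : ((∑ a, f (x - a) * f (y - a) * f (z - a) : ℝ) : ℂ) = 0 := by
      push_cast
      set X := ps (dot k x)
      set Y := ps (dot k y)
      set Z := ps (dot k z)
      calc ∑ a, (f (x - a) : ℂ) * (f (y - a) : ℂ) * (f (z - a) : ℂ) =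
          ∑ a, ((c ^ 3 * X * Y * Z) * E a ^ 3 +
            (c ^ 2 * e * (X * Y * (starRingEnd ℂ) Z + X * (starRingEnd ℂ) Y * Z +
              (starRingEnd ℂ) X * Y * Z)) * E a +
            (c * e ^ 2 * (X * (starRingEnd ℂ) Y * (starRingEnd ℂ) Z +
              (starRingEnd ℂ) X * Y * (starRingEnd ℂ) Z +
              (starRingEnd ℂ) X * (starRingEnd ℂ) Y * Z)) * (starRingEnd ℂ) (E a) +
            (e ^ 3 * (starRingEnd ℂ) X * (starRingEnd ℂ) Y * (starRingEnd ℂ) Z) *
              (starRingEnd ℂ) (E a) ^ 3) := by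
            refine sum_congr rfl fun a _ => ?_
            rw [hfa, hfa, hfa]
            have h := hEE a
            generalize (starRingEnd ℂ) (E a) = Eb at h ⊢
            generalize E a = Ea at h ⊢
            generalize (starRingEnd ℂ) X = Xb
            generalize (starRingEnd ℂ) Y = Yb
            generalize (starRingEnd ℂ) Z = Zb
            linear_combination
              ((c ^ 2 * e * (X * Y * Zb + X * Yb * Z + Xb * Y * Z)) * Ea +
              (c * e ^ 2 * (X * Yb * Zb + Xb * Y * Zb + Xb * Yb * Z)) * Eb) * h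
        _ = 0 := by
            rw [sum_add_distrib, sum_add_distrib, sum_add_distrib, ← mul_sum, ← mul_sum,
              ← mul_sum, ← mul_sum, hE1, hE3, hE1', hE3']
            ring
    exact_mod_cast this

theorem ps_three (v : ZMod L) (h : 3 • v = 0) : ps v ^ 3 = 1 := by
  have : ps (v + v + v) = 1 := by
    rw [← ps_zero (L := L), ← h]
    congr 1
    simp only [nsmul_eq_mul]
    push_cast
    ring
  rw [ps_add, ps_add] at this
  rw [← this]
  ring

theorem few_one : ((univ : Finset (ZMod L)).filter (fun v => 3 • v = 0)).card ≤ 3 := by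
  classical
  set S := (univ : Finset (ZMod L)).filter (fun v => 3 • v = 0) with hS
  have h1 : (S.image (fun v => ps v)).card = S.card :=
    card_image_of_injective S (fun a b h => ps_inj h)
  have h2 : S.image (fun v => ps v) ⊆ (Polynomial.nthRoots 3 (1 : ℂ)).toFinset := by
    intro w hw
    obtain ⟨v, hv, rfl⟩ := mem_image.1 hw
    rw [Multiset.mem_toFinset, Polynomial.mem_nthRoots (by norm_num)]
    exact ps_three v (mem_filter.1 hv).2
  rw [← h1]
  calc _ ≤ ((Polynomial.nthRoots 3 (1 : ℂ)).toFinset).card := card_le_card h2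
    _ ≤ Multiset.card (Polynomial.nthRoots 3 (1 : ℂ)) := Multiset.toFinset_card_le _
    _ ≤ 3 := Polynomial.card_nthRoots 3 1

theorem term_nn (v : ZMod L) :
    0 ≤ 2 - 2 * Real.cos (2 * Real.pi * ((v.val : ℕ) : ℝ) / (L : ℝ)) := by
  have := Real.cos_le_one (2 * Real.pi * ((v.val : ℕ) : ℝ) / (L : ℝ))
  linarith

theorem le_lam (k : Fin d → ZMod L) (i : Fin d) :
    2 - 2 * Real.cos (2 * Real.pi * ((k i).val : ℝ) / (L : ℝ)) ≤ lam k :=
  single_le_sum (f := fun i => 2 - 2 * Real.cos (2 * Real.pi * ((k i).val : ℝ) / (L : ℝ)))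
    (fun j _ => term_nn _) (mem_univ i)

theorem zero_cs (x : Fin d → ZMod L) : ck 0 x = 1 ∧ sk 0 x = 0 := by
  constructor
  · simp [ck]
  · simp [sk]

theorem main : S_PLA where
  comp d L _ x y := by
    simp only [ck_eq, sk_eq]
    exact ortho x y
  norm d L _ k := by
    simp only [ck_eq, sk_eq]
    rw [← sum_add_distrib, sum_congr rfl fun x _ => cs_sq k x]
    simp
  zero d L _ x := zero_cs x
  lapc d L _ k x := by
    simp only [ck_eq, sk_eq]
    exact ⟨lap_cc k x, lap_ss k x⟩
  cub d L _ k hk hk3 := by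
    constructor
    · refine cub_gen k hk hk3 (1 / 2) (1 / 2) _ fun x => ?_
      rw [ck_eq, cc, Complex.re_eq_add_conj]
      ring
    · refine cub_gen k hk hk3 (1 / (2 * Complex.I)) (-(1 / (2 * Complex.I))) _ fun x => ?_
      rw [sk_eq, ss, Complex.im_eq_sub_conj]
      ring
  three d L _ k hk h3 := by
    obtain ⟨i, hi⟩ := Function.ne_iff.1 hk
    refine le_trans ?_ (le_lam k i)
    rw [← ps_re]
    have h1 : ps (k i) ^ 3 = 1 := ps_three (k i) (by
      have := congrFun h3 i
      simpa using this)
    have h2 : ps (k i) ≠ 1 := by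
      intro h
      rw [← ps_zero (L := L)] at h
      exact hi (ps_inj h)
    have h4 : ps (k i) ^ 2 + ps (k i) + 1 = 0 := by
      have : (ps (k i) - 1) * (ps (k i) ^ 2 + ps (k i) + 1) = 0 := by
        linear_combination h1
      rcases mul_eq_zero.1 this with h | h
      · exact absurd (sub_eq_zero.1 h) h2
      · exact h
    have hre := congrArg Complex.re h4
    have him := congrArg Complex.im h4
    simp only [pow_two, Complex.add_re, Complex.mul_re, Complex.one_re, Complex.zero_re,
      Complex.add_im, Complex.mul_im, Complex.one_im, Complex.zero_im] at hre him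
    have h5 : (2 * (ps (k i)).re + 1) * (ps (k i)).im = 0 := by linarith
    rcases mul_eq_zero.1 h5 with h | h
    · linarith
    · rw [h] at hre
      nlinarith
  few d L _ := by
    classical
    have h1 : ((univ : Finset (Fin d → ZMod L)).filter (fun k => 3 • k = 0)) ⊆
        Fintype.piFinset (fun _ : Fin d => (univ : Finset (ZMod L)).filter (fun v => 3 • v = 0)) := by
      intro k hk
      rw [Fintype.mem_piFinset]
      intro i
      rw [mem_filter]
      refine ⟨mem_univ _, ?_⟩
      have := congrFun (mem_filter.1 hk).2 i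
      simpa using this
    refine le_trans (card_le_card h1) ?_
    rw [Fintype.card_piFinset, prod_const, card_univ, Fintype.card_fin]
    exact Nat.pow_le_pow_left few_one d
  low d L _ k hk := by
    obtain ⟨i, hi⟩ := Function.ne_iff.1 hk
    refine le_trans ?_ (le_lam k i)
    have hL : (0 : ℝ) < L := by exact_mod_cast Nat.pos_of_ne_zero (NeZero.ne L)
    have hv1 : 1 ≤ (k i).val := by
      rw [Nat.one_le_iff_ne_zero]
      intro h
      exact hi ((ZMod.val_eq_zero (k i)).1 h)
    have hv2 : (k i).val + 1 ≤ L := ZMod.val_lt (k i)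
    have hv1' : (1 : ℝ) ≤ ((k i).val : ℝ) := by exact_mod_cast hv1
    have hv2' : ((k i).val : ℝ) + 1 ≤ (L : ℝ) := by exact_mod_cast hv2
    have h1 := Pool.Agent.N252.QLR.cos_low (((k i).val : ℝ) / (L : ℝ)) (by positivity)
      (by rw [div_le_one hL]; linarith)
    rw [← mul_div_assoc] at h1
    refine le_trans ?_ h1
    have h2 : 1 / (L : ℝ) ≤ min (((k i).val : ℝ) / (L : ℝ)) (1 - ((k i).val : ℝ) / (L : ℝ)) := by
      refine le_min ?_ ?_
      · gcongr
      · rw [le_sub_iff_add_le, ← add_div, div_le_one hL]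
        linarith
    calc 16 / (L : ℝ) ^ 2 = (4 * (1 / (L : ℝ))) ^ 2 := by
          field_simp
          norm_num
      _ ≤ _ := by gcongr
  planch d L _ θ := by
    set V : ℝ := (Fintype.card (Fin d → ZMod L) : ℝ) with hV
    have hV0 : V ≠ 0 := by
      rw [hV]
      exact_mod_cast Fintype.card_ne_zero
    set G : (Fin d → ZMod L) → (Fin d → ZMod L) → ℝ := fun x y =>
      Real.cos (θ x) * Real.cos (θ y) + Real.sin (θ x) * Real.sin (θ y) with hG
    have hB : ∀ f : (Fin d → ZMod L) → ℝ, BB G f = Nf f θ := by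
      intro f
      unfold BB Nf Xf Yf
      rw [pow_two, pow_two, sum_mul_sum, sum_mul_sum, ← sum_add_distrib]
      refine sum_congr rfl fun x _ => ?_
      rw [← sum_add_distrib]
      refine sum_congr rfl fun y _ => ?_
      simp only [hG]
      ring
    have hp := planch G
    simp only [hB] at hp
    have hGx : ∑ x, G x x = V := by
      have : ∀ x, G x x = 1 := by
        intro x
        simp only [hG]
        have := Real.sin_sq_add_cos_sq (θ x)
        nlinarith
      rw [sum_congr rfl fun x _ => this x, hV]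
      simp
    rw [hGx, ← hV] at hp
    simp only [ck_eq, sk_eq]
    rw [← add_sum_erase univ _ (mem_univ (0 : Fin d → ZMod L))] at hp
    have h0 : Nf (cc (0 : Fin d → ZMod L)) θ + Nf (ss (0 : Fin d → ZMod L)) θ = V ^ 2 * r2 θ := by
      have h1 : cc (0 : Fin d → ZMod L) = fun _ => 1 := by
        rw [← ck_eq]
        funext x
        exact (zero_cs x).1
      have h2 : ss (0 : Fin d → ZMod L) = fun _ => 0 := by
        rw [← sk_eq]
        funext x
        exact (zero_cs x).2
      rw [h1, h2]
      unfold r2 mx my Nf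
      rw [← hV]
      have h3 : Xf (fun _ : Fin d → ZMod L => 0) θ = 0 := by simp [Xf]
      have h4 : Yf (fun _ : Fin d → ZMod L => 0) θ = 0 := by simp [Yf]
      rw [h3, h4]
      field_simp
      ring
    rw [h0] at hp
    linarith

end Pool.Agent.N252.QLP
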