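import Pool.Agent.N252.QL_BIL

/-!
# Project QL, part SPC: two moment bounds force the spectral weight to concentrate
-/

namespace Pool.Agent.N252.QLSP

open Finset
open Pool.Agent.N657.QR Pool.Agent.N657.QL Pool.Agent.N252.QLB

/-- the abstract inequality -/
theorem abs_spc {M : Type} [AddCommGroup M] [Module ℝ M] (I B : M →ₗ[ℝ] M →ₗ[ℝ] ℝ)
    (hI : ∀ a b, I a b = I b a) (hBs : ∀ a b, B a b = B b a) {m : ℕ} (χ : Fin m → M) (e : Fin m → ℝ)
    (he : ∀ j, 0 < e j) (hon : ∀ i j, I (χ i) (χ j) = if i = j then 1 else 0)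
    (hB : ∀ j ψ, B (χ j) ψ = e j * I (χ j) ψ) (Φ : M) (om ε : ℝ) (hom : 0 < om)
    (h1 : B Φ Φ ≤ (1 + ε) * om * I Φ Φ)
    (h2 : ∀ ξ, 2 * I ξ Φ - B ξ ξ ≤ (1 + ε) / om * I Φ Φ) :
    ∑ j, (I (χ j) Φ) ^ 2 * (e j / om + om / e j - 2) ≤ 2 * ε * I Φ Φ := by
  set c : Fin m → ℝ := fun j => I (χ j) Φ with hc
  have lin : ∀ (a : Fin m → ℝ) (ψ : M), I (∑ j, a j • χ j) ψ = ∑ j, a j * I (χ j) ψ := by
    intro a ψ
    simp only [map_sum, LinearMap.sum_apply, map_smul, LinearMap.smul_apply, smul_eq_mul]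
  have linB : ∀ (a : Fin m → ℝ) (ψ : M), B (∑ j, a j • χ j) ψ = ∑ j, a j * (e j * I (χ j) ψ) := by
    intro a ψ
    simp only [map_sum, LinearMap.sum_apply, map_smul, LinearMap.smul_apply, smul_eq_mul, hB]
  have coef : ∀ (a : Fin m → ℝ) (i : Fin m), I (χ i) (∑ j, a j • χ j) = a i := by
    intro a i
    simp only [map_sum, map_smul, smul_eq_mul, hon]
    simp
  set r : M := Φ - ∑ j, c j • χ j with hr
  have hcr : ∀ i, I (χ i) r = 0 := by
    intro i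
    rw [hr, map_sub, coef, sub_self]
  have hIr : I r Φ = I Φ Φ - ∑ j, c j ^ 2 := by
    rw [hr, map_sub, LinearMap.sub_apply, lin]
    congr 1
    exact sum_congr rfl fun j _ => (pow_two _).symm
  have hBr : B r r = B Φ Φ - ∑ j, c j ^ 2 * e j := by
    have e1 : B (∑ j, c j • χ j) r = 0 := by
      rw [linB]
      refine sum_eq_zero fun j _ => ?_
      rw [hcr, mul_zero, mul_zero]
    have e2 : B r r = B Φ r - B (∑ j, c j • χ j) r := by
      have h0 : B r = B Φ - B (∑ j, c j • χ j) := by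
        rw [hr, map_sub]
      rw [h0, LinearMap.sub_apply]
    have e3 : B Φ r = B Φ Φ - B (∑ j, c j • χ j) Φ := by
      rw [hr, map_sub, hBs Φ (∑ j, c j • χ j)]
    rw [e2, e1, e3, linB, sub_zero]
    congr 1
    refine sum_congr rfl fun j _ => ?_
    show c j * (e j * c j) = _
    ring
  set s1 : M := ∑ j, (c j / e j) • χ j with hs1
  have k1 : I (s1 + (1 / om) • r) Φ = (∑ j, c j ^ 2 / e j) + (1 / om) * I r Φ := by
    rw [map_add, LinearMap.add_apply, map_smul, LinearMap.smul_apply, smul_eq_mul, hs1, lin]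
    congr 1
    refine sum_congr rfl fun j _ => ?_
    show c j / e j * c j = _
    ring
  have k2 : B (s1 + (1 / om) • r) (s1 + (1 / om) • r) =
      (∑ j, c j ^ 2 / e j) + (1 / om) ^ 2 * B r r := by
    have e1 : B s1 r = 0 := by
      rw [hs1, linB]
      refine sum_eq_zero fun j _ => ?_
      rw [hcr, mul_zero, mul_zero]
    have e2 : B s1 s1 = ∑ j, c j ^ 2 / e j := by
      rw [hs1, linB]
      refine sum_congr rfl fun j _ => ?_
      rw [coef]
      have := (he j).ne'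
      field_simp
    simp only [map_add, LinearMap.add_apply, map_smul, LinearMap.smul_apply, smul_eq_mul]
    rw [hBs r s1, e1, e2]
    ring
  have h3 := h2 (s1 + (1 / om) • r)
  rw [k1, k2, hIr, hBr] at h3
  have k3 : ∑ j, c j ^ 2 * (e j / om + om / e j - 2) =
      (∑ j, c j ^ 2 * e j) / om + om * (∑ j, c j ^ 2 / e j) - 2 * ∑ j, c j ^ 2 := by
    rw [sum_div, mul_sum, mul_sum, ← sum_add_distrib, ← sum_sub_distrib]
    refine sum_congr rfl fun j _ => ?_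
    ring
  rw [k3]
  set P := I Φ Φ
  set S1 := ∑ j, c j ^ 2 / e j
  set S2 := ∑ j, c j ^ 2 * e j
  set S0 := ∑ j, c j ^ 2
  have h4 := mul_le_mul_of_nonneg_left h3 hom.le
  have h5 : om * (2 * (S1 + 1 / om * (P - S0)) - (S1 + (1 / om) ^ 2 * (B Φ Φ - S2))) =
      om * S1 + 2 * (P - S0) - (B Φ Φ - S2) / om := by
    field_simp
    ring
  have h6 : om * ((1 + ε) / om * P) = (1 + ε) * P := by
    field_simp
  rw [h5, h6] at h4
  have h7 : (B Φ Φ - S2) / om ≤ (1 + ε) * P - S2 / om := by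
    rw [sub_div]
    have : B Φ Φ / om ≤ (1 + ε) * P := by
      rw [div_le_iff₀ hom]
      linarith
    linarith
  linarith

theorem main (hB : S_BAS) : S_SPC := by
  intro d L _ U om ε Φ _hU hom _hε hΦ _hsec h1 h2 m e χ he hon
  set K : Matrix (Fin d → ZMod L) (Fin d → ZMod L) ℝ :=
    U • (1 : Matrix (Fin d → ZMod L) (Fin d → ZMod L) ℝ) with hK
  set E : ℝ := en K (nnw 1) 0 0 with hE
  have hspan : ∀ ξ : FEs (Fin d → ZMod L), BB hB K (nnw 1) 0 E ξ ξ = xs U ξ.1 := fun ξ =>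
    BB_self hB K (nnw 1) 0 E ξ
  -- restrict to the sector
  let M : Submodule ℝ (FEs (Fin d → ZMod L)) :=
    { carrier := {ψ | Sec 0 ψ.1}
      add_mem' := by
        intro a b ha hb n hn
        by_cases h0 : a.1 n = 0
        · refine hb n fun h => hn ?_
          show a.1 n + b.1 n = 0
          rw [h0, h, add_zero]
        · exact ha n h0
      zero_mem' := by
        intro n hn
        exact absurd rfl hn
      smul_mem' := by
        intro c a ha n hn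
        refine ha n fun h => hn ?_
        show c * a.1 n = 0
        rw [h, mul_zero] }
  let I : M →ₗ[ℝ] M →ₗ[ℝ] ℝ := ip.domRestrict₁₂ M M
  let B : M →ₗ[ℝ] M →ₗ[ℝ] ℝ := (BB hB K (nnw 1) 0 E).domRestrict₁₂ M M
  have key := abs_spc I B (fun a b => ip_comm a.1 b.1) (fun a b => BB_comm hB _ _ _ _ a.1 b.1)
    (fun j => (⟨⟨χ j, (he j).2.1⟩, (he j).2.2.1⟩ : M)) e (fun j => (he j).1)
    (fun i j => hon i j)
    (fun j ψ => BB_eig hB K (nnw 1) 0 E (e j) ⟨χ j, (he j).2.1⟩ ψ.1 (he j).2.2.2)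
    (⟨⟨Φ, hΦ⟩, _hsec⟩ : M) om ε hom
    (by
      show BB hB K (nnw 1) 0 E ⟨Φ, hΦ⟩ ⟨Φ, hΦ⟩ ≤ (1 + ε) * om * ip ⟨Φ, hΦ⟩ ⟨Φ, hΦ⟩
      rw [hspan, ip_self]
      exact h1)
    (by
      intro ξ
      show 2 * ip ξ.1 ⟨Φ, hΦ⟩ - BB hB K (nnw 1) 0 E ξ.1 ξ.1 ≤ (1 + ε) / om * ip ⟨Φ, hΦ⟩ ⟨Φ, hΦ⟩
      rw [hspan, ip_self]
      exact h2 ξ.1.1 ξ.1.2 ξ.2)
  have e1 : I (⟨⟨Φ, hΦ⟩, _hsec⟩ : M) (⟨⟨Φ, hΦ⟩, _hsec⟩ : M) = nr Φ := ip_self (⟨Φ, hΦ⟩ : FEs _)
  rw [e1] at key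
  exact key

end Pool.Agent.N252.QLSP
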