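import Pool.Agent.N657.QL.Stm2
import Pool.Agent.N498.QL_SYM

/-!
# Project QL, part SYMG: symmetries of the neutral ground state with the additional hopping
(adapted from the part SYM of helper498)
-/

namespace Pool.Agent.N252.QLSG

open Pool.Agent.N657.QR Pool.Agent.N657.QL Pool.Agent.N498.QL_SYM

variable {d L : ℕ} [NeZero L]

lemma wg_ge {γ : ℝ} (hγ : 0 ≤ γ) (x y : Fin d → ZMod L) : nnw 1 x y ≤ wg γ x y := by
  unfold wg
  have : 0 ≤ γ / (Fintype.card (Fin d → ZMod L) : ℝ) := div_nonneg hγ (Nat.cast_nonneg _)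
  linarith

lemma wg_nonneg {γ : ℝ} (hγ : 0 ≤ γ) (x y : Fin d → ZMod L) : 0 ≤ wg γ x y :=
  le_trans (nnw_nonneg x y) (wg_ge hγ x y)

lemma wg_pos {γ : ℝ} (hγ : 0 ≤ γ) (x : Fin d → ZMod L) (i : Fin d) : 0 < wg γ x (x + ee i) :=
  lt_of_lt_of_le (nnw_pos x i) (wg_ge hγ _ _)

lemma wg_trans (γ : ℝ) (x y a : Fin d → ZMod L) : wg γ (x + a) (y + a) = wg γ x y := by
  unfold wg
  rw [nnw_trans]

lemma sumcr_trg (γ : ℝ) (a : Fin d → ZMod L) (Ψ : ((Fin d → ZMod L) → ℤ) → ℝ) :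
    (∑ x, ∑ y, wg γ x y * cr x y (fun n => Ψ (tr a n))) = ∑ x, ∑ y, wg γ x y * cr x y Ψ := by
  rw [← sum2_tr a (fun x y => wg γ x y * cr x y (fun n => Ψ (tr a n)))]
  refine Finset.sum_congr rfl fun x _ => Finset.sum_congr rfl fun y _ => ?_
  rw [wg_trans, cr_tr, add_sub_cancel_right, add_sub_cancel_right]

/-- SYMG -/
theorem main (hB : S_BAS) (hU : S_UN) (hC : S_CON) : S_SYMG := by
  intro d L _ U γ Ψ hU0 hγ hG
  have hconn : Conn (wg (d := d) (L := L) γ) := hC.1 _ (hC.2.1 d L _ (fun x i => wg_pos hγ x i))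
  have hpd : (U • (1 : Matrix (Fin d → ZMod L) (Fin d → ZMod L) ℝ)).PosDef :=
    Matrix.PosDef.one.smul hU0
  refine ⟨fun n n' => ?_, fun a n n' => ?_⟩
  · have h1 := isG_comp hG (Equiv.neg _) (fun n => sq_neg' n) (fun n => pot_neg _ n)
      (fun n hn => by
        have h2 : -tot n = 0 := (tot_neg' n).symm.trans hn
        omega)
      (Finset.sum_congr rfl fun x _ => Finset.sum_congr rfl fun y _ => by
        congr 1
        exact cr_neg hB x y Ψ)
    exact prod_eq (hU _ _ _ _ _ _ hpd (fun x y => wg_nonneg hγ x y) hconn hG h1).2 n n'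
  · have h1 := isG_comp hG (tr a) (fun n => sq_tr a n) (fun n => pot_tr U a n)
      (fun n hn => (tot_tr a n).symm.trans hn) (sumcr_trg γ a Ψ)
    exact prod_eq (hU _ _ _ _ _ _ hpd (fun x y => wg_nonneg hγ x y) hconn hG h1).2 n n'

end Pool.Agent.N252.QLSG
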