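import Pool.Agent.N657.QL.Stm2
import Pool.Agent.N252.QL_UNC

/-!
# Project QL, part UNCG: the uncertainty relation between the phase and the number of particles,
with the additional hopping `γ / V` between all sites
-/

namespace Pool.Agent.N252.QLUG

open Finset
open Pool.Agent.N657.QR Pool.Agent.N657.QL Pool.Agent.N252.QLU

theorem main (hB : S_BAS) (hM : S_M0G) (hY : S_SYMG) (_hE : S_EIG) : S_UNCG := by
  intro d L _ U γ l Ψ g hU hγ hl hG hg
  have hFE : FE Ψ := hG.1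
  have hm0 := hM d L U γ l Ψ g hU hγ hl hG hg
  have hT := (hY d L U γ Ψ hU hγ hG).2
  set V : ℝ := (Fintype.card (Fin d → ZMod L) : ℝ) with hV
  have hV0 : 0 < V := by
    rw [hV]
    exact_mod_cast Fintype.card_pos
  set σ : ℝ := ∑ x, g x ^ 2 with hσ
  set Ng : ℝ := ∑ x, ∑ y, g x * g y * cr x y Ψ with hNg
  set S0 : ℝ := ∑ x, cr x 0 Ψ with hS0
  have hrow : ∀ y, ∑ x, cr x y Ψ = S0 := by
    intro y
    rw [hS0]
    have h1 : ∀ x, cr x y Ψ = cr (x - y) 0 Ψ := by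
      intro x
      rw [cr_trans Ψ hT x y y, sub_self]
    rw [sum_congr rfl fun x _ => h1 x]
    exact Fintype.sum_equiv (Equiv.subRight y) _ _ (fun x => rfl)
  have htot : ∑ x, ∑ y, cr x y Ψ = V * S0 := by
    rw [sum_comm, sum_congr rfl fun y _ => hrow y]
    simp [hV]
  have hcomm := comm g Ψ hFE
  have e1 : ∑ x, ∑ y, g y * (g y - g x) * cr x y Ψ = σ * S0 - Ng := by
    have h1 : ∑ x, ∑ y, g y * (g y - g x) * cr x y Ψ =
        (∑ x, ∑ y, g y ^ 2 * cr x y Ψ) - ∑ x, ∑ y, g x * g y * cr x y Ψ := by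
      rw [← sum_sub_distrib]
      refine sum_congr rfl fun x _ => ?_
      rw [← sum_sub_distrib]
      refine sum_congr rfl fun y _ => ?_
      ring
    rw [h1, sum_comm]
    congr 1
    rw [hσ, sum_mul]
    refine sum_congr rfl fun y _ => ?_
    rw [← mul_sum, hrow]
  rw [e1, ← hV] at hcomm
  obtain ⟨hB2, hBn⟩ := Bf_norm hB g Ψ hFE.1
  rw [← hNg] at hBn
  have hGL := GG_L2 g Ψ hFE
  have hcs := cs hGL hB2
  have hNg0 : 0 ≤ Ng := le_trans (tsum_nonneg fun n => sq_nonneg _) hBn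
  have hσ0 : 0 ≤ σ := sum_nonneg fun x _ => sq_nonneg _
  have e2 : ∑' n, (GG g n * Ψ n) ^ 2 ≤ σ * Real.sqrt ((l + 2 * γ) / (8 * U)) := by
    refine le_trans (le_of_eq ?_) hm0
    refine tsum_congr fun n => ?_
    unfold GG
    ring
  have e3 : (∑' n, (GG g n * Ψ n) * Bf g Ψ n) ^ 2 ≤ σ * Real.sqrt ((l + 2 * γ) / (8 * U)) * Ng := by
    refine le_trans hcs ?_
    exact mul_le_mul e2 hBn (tsum_nonneg fun n => sq_nonneg _)
      (mul_nonneg hσ0 (Real.sqrt_nonneg _))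
  rw [hcomm] at e3
  have e4 : Real.sqrt (2 * (l + 2 * γ) / U) = 4 * Real.sqrt ((l + 2 * γ) / (8 * U)) := by
    have : 2 * (l + 2 * γ) / U = 4 ^ 2 * ((l + 2 * γ) / (8 * U)) := by
      field_simp
      norm_num
    rw [this, Real.sqrt_mul (by norm_num), Real.sqrt_sq (by norm_num)]
  rw [htot, e4]
  have e5 : V * S0 / V ^ 2 * σ - Ng / V = 2 * (1 / (2 * V) * (σ * S0 - Ng)) := by
    field_simp
  rw [e5, mul_pow]
  nlinarith

end Pool.Agent.N252.QLUG
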