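import Pool.Agent.N657.QL.Stm3
import Pool.Agent.N252.QL_UNC

/-!
# Project QL, part UNM: the uncertainty relation with the fluctuations of the number of particles
-/

namespace Pool.Agent.N252.QLUM

open Finset
open Pool.Agent.N657.QR Pool.Agent.N657.QL Pool.Agent.N252.QLU

theorem main (hB : S_BAS) (hY : S_SYM) (_hE : S_EIG) : S_UNM := by
  intro d L _ U l Ψ g hU _hl hG _hg
  have hFE : FE Ψ := hG.1
  have hT := (hY d L U Ψ hU hG).2
  set V : ℝ := (Fintype.card (Fin d → ZMod L) : ℝ) with hV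
  have hV0 : 0 < V := by
    rw [hV]
    exact_mod_cast Fintype.card_pos
  set σ : ℝ := ∑ x, g x ^ 2 with hσ
  set Ng : ℝ := ∑ x, ∑ y, g x * g y * cr x y Ψ with hNg
  set S0 : ℝ := ∑ x, cr x 0 Ψ with hS0
  have hrow : ∀ y, ∑ x, cr x y Ψ = S0 := by
    intro y
    rw [hS0]
    have h1 : ∀ x, cr x y Ψ = cr (x - y) 0 Ψ := by
      intro x
      rw [cr_trans Ψ hT x y y, sub_self]
    rw [sum_congr rfl fun x _ => h1 x]
    exact Fintype.sum_equiv (Equiv.subRight y) _ _ (fun x => rfl)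
  have htot : ∑ x, ∑ y, cr x y Ψ = V * S0 := by
    rw [sum_comm, sum_congr rfl fun y _ => hrow y]
    simp [hV]
  have hcomm := comm g Ψ hFE
  have e1 : ∑ x, ∑ y, g y * (g y - g x) * cr x y Ψ = σ * S0 - Ng := by
    have h1 : ∑ x, ∑ y, g y * (g y - g x) * cr x y Ψ =
        (∑ x, ∑ y, g y ^ 2 * cr x y Ψ) - ∑ x, ∑ y, g x * g y * cr x y Ψ := by
      rw [← sum_sub_distrib]
      refine sum_congr rfl fun x _ => ?_
      rw [← sum_sub_distrib]
      refine sum_congr rfl fun y _ => ?_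
      ring
    rw [h1, sum_comm]
    congr 1
    rw [hσ, sum_mul]
    refine sum_congr rfl fun y _ => ?_
    rw [← mul_sum, hrow]
  rw [e1, ← hV] at hcomm
  obtain ⟨hB2, hBn⟩ := Bf_norm hB g Ψ hFE.1
  rw [← hNg] at hBn
  have hGL := GG_L2 g Ψ hFE
  have hcs := cs hGL hB2
  have hNg0 : 0 ≤ Ng := le_trans (tsum_nonneg fun n => sq_nonneg _) hBn
  have e2 : ∑' n, (GG g n * Ψ n) ^ 2 = nr (dw g Ψ) := rfl
  have hn0 : 0 ≤ nr (dw g Ψ) := tsum_nonneg fun n => sq_nonneg _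
  have e3 : (∑' n, (GG g n * Ψ n) * Bf g Ψ n) ^ 2 ≤ nr (dw g Ψ) * Ng := by
    refine le_trans hcs ?_
    rw [e2]
    exact mul_le_mul_of_nonneg_left hBn hn0
  rw [hcomm] at e3
  rw [htot]
  have e5 : V * S0 / V ^ 2 * σ - Ng / V = 2 * (1 / (2 * V) * (σ * S0 - Ng)) := by
    field_simp
  rw [e5, mul_pow]
  nlinarith

end Pool.Agent.N252.QLUM
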