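import Pool.Agent.N657.QL.Stm3
import Pool.Agent.N222.QL_UP

/-!
# Project QL, part UPK: the sharp infrared bound for every mode (assembly)
(with lemmas of helper222, part UP)
-/

namespace Pool.Agent.N252.QLUK

open Finset MeasureTheory
open Pool.Agent.N657.QR Pool.Agent.N657.QL
open Pool.Agent.N222.QLUP (integ cMmem mode)

theorem Nf_nn {V : Type} [Fintype V] (f θ : V → ℝ) : 0 ≤ Nf f θ := by
  unfold Nf
  positivity

/-- the weighted mass of a mode -/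
theorem weighted (hT : S_TPB) {d L : ℕ} [NeZero L] {U : ℝ}
    {μ : Measure ((Fin d → ZMod L) → ℝ)} (hE : Env U μ) (f : (Fin d → ZMod L) → ℝ) (τ : ℝ)
    (hτ : 0 < τ) :
    ∫ θ, (1 - r2 θ) * Nf f θ ∂μ ≤ τ * (∫ θ, Nf f θ ∂μ) +
      1 / τ * ∫ θ, Xf f θ ^ 2 * (1 - r2 θ) ^ 2 ∂μ := by
  have := hE.prob
  obtain ⟨mX, mY, -, -, mr, mN, -, -⟩ := hT.mem f
  have m1 : (fun θ : (Fin d → ZMod L) → ℝ => 1 - r2 θ) ∈ TP (Fin d → ZMod L) :=
    Subalgebra.sub_mem _ (Subalgebra.one_mem _) mr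
  have mA : (fun θ => (1 - r2 θ) * Xf f θ ^ 2) ∈ TP (Fin d → ZMod L) :=
    Subalgebra.mul_mem _ m1 (Subalgebra.pow_mem _ mX 2)
  have mB : (fun θ => (1 - r2 θ) * Yf f θ ^ 2) ∈ TP (Fin d → ZMod L) :=
    Subalgebra.mul_mem _ m1 (Subalgebra.pow_mem _ mY 2)
  have mC : (fun θ => Xf f θ ^ 2 * (1 - r2 θ) ^ 2) ∈ TP (Fin d → ZMod L) :=
    Subalgebra.mul_mem _ (Subalgebra.pow_mem _ mX 2) (Subalgebra.pow_mem _ m1 2)
  have h1 : ∫ θ, (1 - r2 θ) * Xf f θ ^ 2 ∂μ = ∫ θ, (1 - r2 θ) * Yf f θ ^ 2 ∂μ := by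
    have h := hE.rot _ mA (Real.pi / 2)
    rw [← h]
    refine integral_congr_ae (ae_of_all _ fun θ => ?_)
    obtain ⟨r1, -, -, -, r5, -⟩ := hT.rot f θ (Real.pi / 2)
    show (1 - r2 (fun x => θ x + Real.pi / 2)) * Xf f (fun x => θ x + Real.pi / 2) ^ 2 =
      (1 - r2 θ) * Yf f θ ^ 2
    rw [r1, r5, Real.cos_pi_div_two, Real.sin_pi_div_two]
    ring
  have h2 : ∫ θ, (1 - r2 θ) * Nf f θ ∂μ = 2 * ∫ θ, (1 - r2 θ) * Xf f θ ^ 2 ∂μ := by
    have e : ∫ θ, (1 - r2 θ) * Nf f θ ∂μ =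
        (∫ θ, (1 - r2 θ) * Xf f θ ^ 2 ∂μ) + ∫ θ, (1 - r2 θ) * Yf f θ ^ 2 ∂μ := by
      rw [← integral_add (integ hT μ _ mA) (integ hT μ _ mB)]
      refine integral_congr_ae (ae_of_all _ fun θ => ?_)
      show (1 - r2 θ) * Nf f θ = (1 - r2 θ) * Xf f θ ^ 2 + (1 - r2 θ) * Yf f θ ^ 2
      unfold Nf
      ring
    rw [e, ← h1]
    ring
  rw [h2, ← integral_const_mul, ← integral_const_mul, ← integral_const_mul,
    ← integral_add ((integ hT μ _ mN).const_mul _) ((integ hT μ _ mC).const_mul _)]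
  refine integral_mono ((integ hT μ _ mA).const_mul _)
    (((integ hT μ _ mN).const_mul _).add ((integ hT μ _ mC).const_mul _)) fun θ => ?_
  show 2 * ((1 - r2 θ) * Xf f θ ^ 2) ≤ τ * Nf f θ + 1 / τ * (Xf f θ ^ 2 * (1 - r2 θ) ^ 2)
  have h3 : 2 * ((1 - r2 θ) * Xf f θ ^ 2) ≤
      τ * Xf f θ ^ 2 + 1 / τ * (Xf f θ ^ 2 * (1 - r2 θ) ^ 2) := by
    have h4 : 0 ≤ 1 / τ * (Xf f θ ^ 2 * (τ - (1 - r2 θ)) ^ 2) := by positivity
    have h5 : 1 / τ * (Xf f θ ^ 2 * (τ - (1 - r2 θ)) ^ 2) =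
        τ * Xf f θ ^ 2 + 1 / τ * (Xf f θ ^ 2 * (1 - r2 θ) ^ 2) -
          2 * ((1 - r2 θ) * Xf f θ ^ 2) := by
      field_simp
      ring
    linarith
  have h6 : τ * Xf f θ ^ 2 ≤ τ * Nf f θ := by
    refine mul_le_mul_of_nonneg_left ?_ hτ.le
    unfold Nf
    nlinarith [sq_nonneg (Yf f θ)]
  linarith

theorem main (hT : S_TPB) (hS : S_SUMQ) (hR : S_RATIO) (h1 : S_TRANSN) (h2 : S_LONGN)
    (h3 : S_SQN) : S_UPK := by
  intro d hd ε hε
  obtain ⟨C2, hC2, hsum⟩ := hS d hd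
  obtain ⟨C5, hC5, hsq⟩ := h3
  obtain ⟨δ, hδ⟩ : ∃ δ, δ = min 1 (ε / 15) := ⟨_, rfl⟩
  have hδ0 : 0 < δ := by rw [hδ]; exact lt_min one_pos (by positivity)
  have hδ1 : δ ≤ 1 := by rw [hδ]; exact min_le_left _ _
  have hδ2 : 5 * δ ≤ ε / 3 := by
    have : δ ≤ ε / 15 := by rw [hδ]; exact min_le_right _ _
    linarith
  obtain ⟨M, hM, hMr⟩ := hR.1 δ hδ0
  obtain ⟨hB, hbd, D, hD, hDb⟩ := hR.2 M hM
  obtain ⟨C3, hC3, ht⟩ := h1 M δ hδ0
  obtain ⟨a0, C4, ha0, hC4, hl⟩ := h2 M (δ * cM M 1) (mul_pos hδ0 hB)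
  obtain ⟨B, hBe⟩ : ∃ B, B = cM M 1 := ⟨_, rfl⟩
  rw [← hBe] at hB hMr hDb hl
  obtain ⟨Q, hQ⟩ : ∃ Q, Q = D * (1 + C5 * C2) + 1 := ⟨_, rfl⟩
  have hQ0 : 0 < Q := by rw [hQ]; positivity
  refine ⟨min 1 (min ((a0 / C2) ^ 2) ((ε * B / (6 * Q)) ^ 2)), by positivity, ?_⟩
  intro U hU hU0
  have hU1 : U ≤ 1 := hU0.trans (min_le_left _ _)
  have hUa : Real.sqrt U ≤ a0 / C2 := by
    rw [← Real.sqrt_sq (by positivity : 0 ≤ a0 / C2)]
    exact Real.sqrt_le_sqrt (hU0.trans ((min_le_right _ _).trans (min_le_left _ _)))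
  have hUb : Real.sqrt U ≤ ε * B / (6 * Q) := by
    rw [← Real.sqrt_sq (by positivity : 0 ≤ ε * B / (6 * Q))]
    exact Real.sqrt_le_sqrt (hU0.trans ((min_le_right _ _).trans (min_le_right _ _)))
  obtain ⟨L1, hL1⟩ := hsum U hU hU1
  obtain ⟨W, hW⟩ : ∃ W, W = C3 + C4 + D * C5 := ⟨_, rfl⟩
  have hW0 : 0 ≤ W := by rw [hW]; positivity
  refine ⟨max L1 (⌈3 * W / (2 * B * ε)⌉₊ + 1), ?_⟩
  intro L _ hLL μ hE l f hl16 hf
  have := hE.prob
  obtain ⟨ha1, ha2⟩ := hL1 L ((le_max_left _ _).trans hLL) μ hE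
  have hLW : 3 * W / (2 * B * ε) ≤ L := by
    refine (Nat.le_ceil _).trans ?_
    exact_mod_cast (Nat.le_succ _).trans ((le_max_right _ _).trans hLL)
  have hL0 : 0 < (L : ℝ) := by exact_mod_cast Nat.pos_of_ne_zero (NeZero.ne L)
  have hL1' : (1 : ℝ) ≤ L := by exact_mod_cast Nat.pos_of_ne_zero (NeZero.ne L)
  have hl0 : 0 < l := lt_of_lt_of_le (by positivity) hl16
  have hsU : 0 < Real.sqrt U := Real.sqrt_pos.2 hU
  have hsl : 0 < Real.sqrt l := Real.sqrt_pos.2 hl0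
  have hUU : Real.sqrt U * Real.sqrt U = U := Real.mul_self_sqrt hU.le
  have hll : Real.sqrt l * Real.sqrt l = l := Real.mul_self_sqrt hl0.le
  have hs2 : 0 < Real.sqrt 2 := Real.sqrt_pos.2 two_pos
  have hs21 : 1 ≤ Real.sqrt 2 := by rw [Real.one_le_sqrt]; norm_num
  have hs22 : Real.sqrt 2 ≤ 2 := by
    rw [Real.sqrt_le_left (by norm_num)]
    norm_num
  have hsU1 : Real.sqrt U ≤ 1 := by rw [Real.sqrt_le_one]; exact hU1
  obtain ⟨V, hV⟩ : ∃ V : ℝ, V = (Fintype.card (Fin d → ZMod L) : ℝ) := ⟨_, rfl⟩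
  have hV0 : 0 < V := by rw [hV]; exact_mod_cast Fintype.card_pos
  have hVL : (L : ℝ) ^ 2 ≤ V := by
    rw [hV, Fintype.card_pi]
    simp only [ZMod.card, prod_const, card_univ, Fintype.card_fin]
    push_cast
    exact pow_le_pow_right₀ hL1' hd
  obtain ⟨σ, hσ⟩ : ∃ σ : ℝ, σ = ∑ x, f x ^ 2 := ⟨_, rfl⟩
  have hσ0 : 0 ≤ σ := by rw [hσ]; exact sum_nonneg fun x _ => sq_nonneg _
  obtain ⟨κ, hκ⟩ : ∃ κ : ℝ, κ = σ * Real.sqrt U / Real.sqrt l := ⟨_, rfl⟩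
  have hκ0 : 0 ≤ κ := by rw [hκ]; positivity
  -- the small term
  have hsmall : σ * U / (V * l) ≤ κ * Real.sqrt U / (4 * L) := by
    have h4 : 4 / (L : ℝ) ≤ Real.sqrt l := by
      rw [← Real.sqrt_sq (by positivity : (0 : ℝ) ≤ 4 / L)]
      apply Real.sqrt_le_sqrt
      calc (4 / (L : ℝ)) ^ 2 = 16 / (L : ℝ) ^ 2 := by ring
        _ ≤ _ := hl16
    rw [div_le_iff₀ hL0] at h4
    have e : σ * U / (V * l) = κ * Real.sqrt U / (V * Real.sqrt l) := by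
      rw [hκ]
      have e1 : σ * U / (V * l) = σ * (Real.sqrt U * Real.sqrt U) / (V * (Real.sqrt l *
        Real.sqrt l)) := by rw [hUU, hll]
      rw [e1]
      field_simp
    rw [e]
    have h5 : 4 * (L : ℝ) ≤ V * Real.sqrt l := by
      calc 4 * (L : ℝ) ≤ Real.sqrt l * L * L := by nlinarith
        _ = (L : ℝ) ^ 2 * Real.sqrt l := by ring
        _ ≤ V * Real.sqrt l := mul_le_mul_of_nonneg_right hVL hsl.le
    gcongr
  have haa : a1 μ ≤ a0 := by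
    refine ha1.trans ?_
    rw [le_div_iff₀ hC2] at hUa
    linarith
  obtain ⟨-, -, -, -, mr, mN, mL, mT⟩ := hT.mem f
  have hc := cMmem (V := Fin d → ZMod L) hT M
  have m1 : (fun θ : (Fin d → ZMod L) → ℝ => 1 - r2 θ) ∈ TP (Fin d → ZMod L) :=
    Subalgebra.sub_mem _ (Subalgebra.one_mem _) mr
  have i1 : Integrable (fun θ => r2 θ * cM M (r2 θ) * Nf f θ) μ :=
    integ hT μ _ (Subalgebra.mul_mem _ (Subalgebra.mul_mem _ mr hc) mN)
  have i2 : Integrable (fun θ => (1 - r2 θ) * Nf f θ) μ :=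
    integ hT μ _ (Subalgebra.mul_mem _ m1 mN)
  have i3 : Integrable (fun θ => Nf f θ) μ := integ hT μ _ mN
  obtain ⟨I, hI⟩ : ∃ I : ℝ, I = ∫ θ, Nf f θ ∂μ := ⟨_, rfl⟩
  have hI0 : 0 ≤ I := by rw [hI]; exact integral_nonneg fun θ => Nf_nn f θ
  have hirb : I ≤ κ := by
    rw [hI, hκ, hσ]
    refine (hE.irb l f hl0 hf).trans (le_of_eq ?_)
    ring
  have hmain : B * I ≤ (∫ θ, r2 θ * cM M (r2 θ) * Nf f θ ∂μ) +
      D * ∫ θ, (1 - r2 θ) * Nf f θ ∂μ := by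
    rw [hI, ← integral_const_mul, ← integral_const_mul, ← integral_add i1 (i2.const_mul D)]
    refine integral_mono (i3.const_mul B) (i1.add (i2.const_mul D)) fun θ => ?_
    obtain ⟨b1, b2, -⟩ := hT.bounds f θ
    have h5 := mul_le_mul_of_nonneg_right (hDb _ b1 b2) (Nf_nn f θ)
    show B * Nf f θ ≤ r2 θ * cM M (r2 θ) * Nf f θ + D * ((1 - r2 θ) * Nf f θ)
    linarith
  rw [mode hT f] at hmain
  have t1 := ht d L U l μ f hU hl0 hE hf
  have t2 := hl d L U l μ f hU hl0 hE hf haa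
  rw [← hσ, ← hV] at t1 t2
  have t3 := weighted hT hE f (Real.sqrt U) hsU
  have t4 := hsq d L U l μ f hU hl0 hE hf
  rw [← hσ, ← hV] at t4
  rw [← hI] at t3
  have k1 : (1 + δ) * AM M 1 * σ * Real.sqrt U / (Real.sqrt 2 * Real.sqrt l) ≤
      κ * ((1 + δ) ^ 2 * B / Real.sqrt 2) := by
    have e : (1 + δ) * AM M 1 * σ * Real.sqrt U / (Real.sqrt 2 * Real.sqrt l) =
        κ * ((1 + δ) * AM M 1 / Real.sqrt 2) := by
      rw [hκ]
      field_simp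
    rw [e]
    apply mul_le_mul_of_nonneg_left _ hκ0
    have h6 : (1 + δ) * AM M 1 ≤ (1 + δ) ^ 2 * B := by
      have := mul_le_mul_of_nonneg_left hMr (by linarith : 0 ≤ 1 + δ)
      calc (1 + δ) * AM M 1 ≤ (1 + δ) * ((1 + δ) * B) := this
        _ = _ := by ring
    gcongr
  have k2 : δ * B * σ * Real.sqrt U / Real.sqrt l = κ * (δ * B) := by
    rw [hκ]
    ring
  have k3 : C3 * σ * U / (V * l) ≤ κ * (C3 / (4 * L)) := by
    calc C3 * σ * U / (V * l) = C3 * (σ * U / (V * l)) := by ring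
      _ ≤ C3 * (κ * Real.sqrt U / (4 * L)) := mul_le_mul_of_nonneg_left hsmall hC3
      _ ≤ C3 * (κ * 1 / (4 * L)) := by gcongr
      _ = _ := by ring
  have k4 : C4 * σ * U / (V * l) ≤ κ * (C4 / (4 * L)) := by
    calc C4 * σ * U / (V * l) = C4 * (σ * U / (V * l)) := by ring
      _ ≤ C4 * (κ * Real.sqrt U / (4 * L)) := mul_le_mul_of_nonneg_left hsmall hC4
      _ ≤ C4 * (κ * 1 / (4 * L)) := by gcongr
      _ = _ := by ring
  have k5 : ∫ θ, (1 - r2 θ) * Nf f θ ∂μ ≤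
      κ * (Real.sqrt U * (1 + C5 * C2) + C5 / (4 * L)) := by
    have q1 : σ * Real.sqrt U / Real.sqrt l * a2 μ ≤ κ * (C2 * U) := by
      rw [← hκ]
      exact mul_le_mul_of_nonneg_left ha2 hκ0
    have q2 : ∫ θ, Xf f θ ^ 2 * (1 - r2 θ) ^ 2 ∂μ ≤
        C5 * (κ * (C2 * U) + κ * Real.sqrt U / (4 * L)) := by
      refine t4.trans ?_
      exact mul_le_mul_of_nonneg_left (add_le_add q1 hsmall) hC5
    have q3 := mul_le_mul_of_nonneg_left q2 (by positivity : 0 ≤ 1 / Real.sqrt U)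
    have q4 : 1 / Real.sqrt U * (C5 * (κ * (C2 * U) + κ * Real.sqrt U / (4 * L))) =
        κ * (Real.sqrt U * (C5 * C2) + C5 / (4 * L)) := by
      have : U = Real.sqrt U * Real.sqrt U := hUU.symm
      rw [show C2 * U = C2 * (Real.sqrt U * Real.sqrt U) by rw [hUU]]
      field_simp
    rw [q4] at q3
    have q5 : Real.sqrt U * I ≤ Real.sqrt U * κ := mul_le_mul_of_nonneg_left hirb hsU.le
    calc _ ≤ _ := t3
      _ ≤ Real.sqrt U * κ + κ * (Real.sqrt U * (C5 * C2) + C5 / (4 * L)) := add_le_add q5 q3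
      _ = _ := by ring
  have k6 : B * I ≤ κ * ((1 + δ) ^ 2 * B / Real.sqrt 2 + δ * B + W / (4 * L) +
      D * (1 + C5 * C2) * Real.sqrt U) := by
    have k7 := mul_le_mul_of_nonneg_left k5 hD
    have e : κ * ((1 + δ) ^ 2 * B / Real.sqrt 2 + δ * B + W / (4 * L) +
      D * (1 + C5 * C2) * Real.sqrt U) = κ * ((1 + δ) ^ 2 * B / Real.sqrt 2) + κ * (δ * B) +
        κ * (C3 / (4 * L)) + κ * (C4 / (4 * L)) +
        D * (κ * (Real.sqrt U * (1 + C5 * C2) + C5 / (4 * L))) := by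
      rw [hW]
      ring
    rw [e]
    rw [k2] at t2
    linarith
  have hbr : (1 + δ) ^ 2 * B / Real.sqrt 2 + δ * B + W / (4 * L) +
      D * (1 + C5 * C2) * Real.sqrt U ≤ B * ((1 + ε) / Real.sqrt 2) := by
    have g1 : (1 + δ) ^ 2 ≤ 1 + 3 * δ := by nlinarith
    have g2 : δ * B * Real.sqrt 2 ≤ 2 * δ * B := by
      have := mul_le_mul_of_nonneg_left hs22 (by positivity : 0 ≤ δ * B)
      linarith
    have g3 : W / (4 * L) * Real.sqrt 2 ≤ ε / 3 * B := by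
      have g4 : W / (4 * L) * Real.sqrt 2 ≤ W / (4 * L) * 2 :=
        mul_le_mul_of_nonneg_left hs22 (by positivity)
      refine g4.trans ?_
      rw [div_le_iff₀ (by positivity)] at hLW
      rw [div_mul_eq_mul_div, div_le_iff₀ (by positivity)]
      nlinarith
    have g5 : D * (1 + C5 * C2) * Real.sqrt U * Real.sqrt 2 ≤ ε / 3 * B := by
      have g6 : D * (1 + C5 * C2) ≤ Q := by rw [hQ]; linarith
      have g7 : 0 ≤ D * (1 + C5 * C2) := by positivity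
      calc D * (1 + C5 * C2) * Real.sqrt U * Real.sqrt 2 ≤
          Q * (ε * B / (6 * Q)) * 2 := by gcongr
        _ = ε / 3 * B := by
          field_simp
          norm_num
    rw [← mul_div_assoc, le_div_iff₀ hs2]
    have g8 : ((1 + δ) ^ 2 * B / Real.sqrt 2 + δ * B + W / (4 * L) +
        D * (1 + C5 * C2) * Real.sqrt U) * Real.sqrt 2 = (1 + δ) ^ 2 * B + δ * B * Real.sqrt 2 +
        W / (4 * L) * Real.sqrt 2 + D * (1 + C5 * C2) * Real.sqrt U * Real.sqrt 2 := by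
      have : (1 + δ) ^ 2 * B / Real.sqrt 2 * Real.sqrt 2 = (1 + δ) ^ 2 * B := by
        field_simp
      rw [add_mul, add_mul, add_mul, this]
    rw [g8]
    have g9 : (1 + δ) ^ 2 * B ≤ (1 + 3 * δ) * B := mul_le_mul_of_nonneg_right g1 hB.le
    have g10 : 5 * δ * B ≤ ε / 3 * B := mul_le_mul_of_nonneg_right hδ2 hB.le
    linarith
  have hfin : B * I ≤ B * (κ * ((1 + ε) / Real.sqrt 2)) := by
    refine k6.trans ?_
    calc _ ≤ κ * (B * ((1 + ε) / Real.sqrt 2)) := mul_le_mul_of_nonneg_left hbr hκ0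
      _ = _ := by ring
  have hfin2 := le_of_mul_le_mul_left hfin hB
  rw [← hI, ← hσ]
  refine hfin2.trans (le_of_eq ?_)
  have e : Real.sqrt (U / (2 * l)) = Real.sqrt U / (Real.sqrt 2 * Real.sqrt l) := by
    rw [Real.sqrt_div hU.le, Real.sqrt_mul (by norm_num)]
  rw [e, hκ]
  field_simp

end Pool.Agent.N252.QLUK
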